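import Pool.Agent.Lib.MP_b75bf2_nt.RND.Spec
import Mathlib.Probability.Moments.Basic
import Pool.Agent.Lib.MP_b75bf2_nt.CAP.Windows
import Pool.Agent.Lib.MP_b75bf2_nt.CAP.Phase

section
/-!
# Case one: long sparse chains of windows occur, almost surely, also for the random set
-/
set_option autoImplicit false
open Classical MeasureTheory ProbabilityTheory
open scoped Pointwise

namespace Pool.Agent.Lib.MP_b75bf2_nt.RND.CaseOneM

lemma blk_nonneg {p : ℕ → ℝ} (h : ∀ n, 0 ≤ p n) (k : ℕ) : 0 ≤ blk p k := by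
  unfold blk
  exact mul_nonneg (by positivity) (h _)

lemma A_nonneg {a : ℕ → ℝ} (h : ∀ n, 0 ≤ a n) (L t : ℕ) : 0 ≤ A a L t :=
  Finset.sum_nonneg fun k _ => h k

/-- A chain increases. -/
lemma chain_mono {a : ℕ → ℝ} (ha : ∀ n, 0 ≤ a n) {k L C : ℕ} {t : ℕ → ℕ} (hC : 1 ≤ C)
    (h : ∀ i < k, (C : ℝ) * (A a L (t i + 1) + t i + 1) ≤ t (i + 1)) :
    ∀ i ≤ k, ∀ j ≤ i, t j ≤ t i := by
  have hstep : ∀ i < k, t i ≤ t (i + 1) := by
    intro i hi
    have h1 := h i hi
    have h2 := A_nonneg ha L (t i + 1)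
    have h3 : (1 : ℝ) ≤ C := by exact_mod_cast hC
    have h4 : (t i : ℝ) ≤ t (i + 1) := by
      have h5 : (0 : ℝ) ≤ t i := Nat.cast_nonneg _
      nlinarith
    exact_mod_cast h4
  intro i
  induction i with
  | zero => intro _ j hj; rw [Nat.le_zero.1 hj]
  | succ i ih =>
    intro hi j hj
    rcases Nat.lt_or_ge i j with h1 | h1
    · rw [show j = i + 1 by omega]
    · exact (ih (by omega) j h1).trans (hstep i (by omega))

theorem specCaseOne (hL : SpecLists) (hN : SpecNum) : SpecCaseOne := by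
  intro Ω _ μ p B hR hcase
  have ha : ∀ n, 0 ≤ blk p n := blk_nonneg hR.nonneg
  choose L t ht0 htJ hch using fun k : ℕ => hcase k k (6 * (k + 1))
  have hmono : ∀ k, ∀ i ≤ k, ∀ j ≤ i, t k j ≤ t k i := fun k =>
    chain_mono ha (by omega) (hch k)
  have htk : ∀ k, ∀ i ≤ k, k ≤ t k i := fun k i hi =>
    (ht0 k).trans (hmono k i hi 0 (Nat.zero_le _))
  have htL : ∀ k, ∀ i ≤ k, t k i ≤ L k := fun k i hi => (hmono k k le_rfl i hi).trans (htJ k)
  -- the exceptional events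
  let F : ℕ → ℕ → Set Ω := fun k i => {ω | 6 * A (blk p) (L k) (t k i + 1) + t k i <
    (((W (L k) (t k i)).filter (fun n => n ∈ B ω)).card : ℝ)}
  let G : ℕ → Set Ω := fun k => ⋃ i ∈ Finset.range k, F k i
  have hG : ∀ k, μ (G k) ≤ ENNReal.ofReal ((k : ℝ) ^ 1 * Real.exp (-1 * (k : ℝ))) := by
    intro k
    have h1 : μ (G k) ≤ ∑ i ∈ Finset.range k, μ (F k i) := measure_biUnion_finset_le _ _
    have h2 : ∑ i ∈ Finset.range k, μ (F k i) ≤
        ∑ _i ∈ Finset.range k, ENNReal.ofReal (Real.exp (-1 * (k : ℝ))) := by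
      refine Finset.sum_le_sum fun i hi => ?_
      have hi' := (Finset.mem_range.1 hi).le
      refine (hN Ω μ p B hR (L k) (t k i) (htL k i hi')).trans ?_
      refine ENNReal.ofReal_le_ofReal (Real.exp_le_exp.2 ?_)
      have : (k : ℝ) ≤ t k i := by exact_mod_cast htk k i hi'
      linarith
    refine (h1.trans h2).trans (le_of_eq ?_)
    rw [Finset.sum_const, Finset.card_range, nsmul_eq_mul, pow_one,
      ENNReal.ofReal_mul (Nat.cast_nonneg k), ENNReal.ofReal_natCast]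
  have hsum : ∑' k, μ (G k) ≠ ⊤ := by
    have h1 : Summable fun k : ℕ => (k : ℝ) ^ 1 * Real.exp (-1 * (k : ℝ)) :=
      Real.summable_pow_mul_exp_neg_nat_mul 1 (by norm_num)
    exact ne_top_of_le_ne_top h1.tsum_ofReal_ne_top (ENNReal.tsum_le_tsum hG)
  filter_upwards [ae_eventually_notMem hsum] with ω hω
  obtain ⟨k₀, hk₀⟩ := Filter.eventually_atTop.1 hω
  intro m q
  obtain ⟨K, C, hKC⟩ := hL (m + 1) q
  set k : ℕ := k₀ + K + C + m + 1 with hk
  have hkG := hk₀ k (by omega)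
  have hcount : ∀ i < k, (((W (L k) (t k i)).filter (fun n => n ∈ B ω)).card : ℝ) ≤
      6 * A (blk p) (L k) (t k i + 1) + t k i := by
    intro i hi
    by_contra hcon
    refine hkG ?_
    simp only [G, Set.mem_iUnion]
    exact ⟨i, Finset.mem_range.2 hi, not_le.1 hcon⟩
  obtain ⟨θ, h1, h2, h3, h4, h5, h6⟩ := hKC (B ω) (L k) (t k)
    (le_trans (by omega) (htk k 0 (by omega))) (htL k (m + 1) (by omega)) (by
      intro i hi
      have hi' : i < k := by omega
      have a1 := hcount i hi'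
      have a2 := hch k i hi'
      have a3 := A_nonneg ha (L k) (t k i + 1)
      have a4 : (C : ℝ) ≤ k + 1 := by
        have : C ≤ k + 1 := by omega
        exact_mod_cast this
      have a5 : (0 : ℝ) ≤ t k i := Nat.cast_nonneg _
      have a6 : (0 : ℝ) ≤ C := Nat.cast_nonneg _
      have a7 : (C : ℝ) * ((((W (L k) (t k i)).filter (fun n => n ∈ B ω)).card : ℝ) + t k i + 1) ≤
          t k (i + 1) := by
        calc (C : ℝ) * ((((W (L k) (t k i)).filter (fun n => n ∈ B ω)).card : ℝ) + t k i + 1)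
            ≤ C * (6 * (A (blk p) (L k) (t k i + 1) + t k i + 1)) :=
              mul_le_mul_of_nonneg_left (by linarith) a6
          _ ≤ (k + 1) * (6 * (A (blk p) (L k) (t k i + 1) + t k i + 1)) :=
              mul_le_mul_of_nonneg_right a4 (by linarith)
          _ = ((6 * (k + 1) : ℕ) : ℝ) * (A (blk p) (L k) (t k i + 1) + t k i + 1) := by
              push_cast; ring
          _ ≤ t k (i + 1) := a2
      exact_mod_cast a7)
  refine ⟨2 ^ L k, θ, by positivity, fun j hj => h1 j (by omega), fun j hj => h2 j (by omega),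
    fun j hj => ?_, fun j hj => h4 j (by omega), h5 (by omega), fun b hb hbN => ?_⟩
  · have := h3 j (by omega)
    push_cast
    exact this
  · refine le_trans (Finset.card_le_card ?_) (h6 b hb hbN)
    exact Finset.filter_subset_filter _ (Finset.range_subset_range.2 (by omega))

end Pool.Agent.Lib.MP_b75bf2_nt.RND.CaseOneM
end

section
/-!
# (D2) Boundedly many windows cover everything

Without arbitrarily long and sparse chains of windows there is `N` such that, for every `M`, the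
iteration `t ↦ min L ⌊A a L t / M⌋` reaches `L` after at most `N` steps.
-/
set_option autoImplicit false

namespace Pool.Agent.Lib.MP_b75bf2_nt.RND.CoverM

/-- The next window. -/
noncomputable def nxt (a : ℕ → ℝ) (M L t : ℕ) : ℕ := min L ⌊A a L t / M⌋₊

/-- The windows. -/
noncomputable def seq (a : ℕ → ℝ) (M L t₀ : ℕ) : ℕ → ℕ
  | 0 => t₀
  | i + 1 => nxt a M L (seq a M L t₀ i)

/-- The mass of a window is monotone in its length. -/
theorem A_mono (a : ℕ → ℝ) (ha : ∀ k, 0 ≤ a k) (L s t : ℕ) (h : s ≤ t) : A a L s ≤ A a L t := by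
  unfold A
  apply Finset.sum_le_sum_of_subset_of_nonneg
  · intro k hk
    simp only [Finset.mem_Ico] at hk ⊢
    omega
  · intro k _ _
    exact ha k

/-- The mass of a window is nonnegative. -/
theorem A_nonneg (a : ℕ → ℝ) (ha : ∀ k, 0 ≤ a k) (L t : ℕ) : 0 ≤ A a L t :=
  Finset.sum_nonneg fun k _ => ha k

/-- The next window is allowed. -/
theorem nxt_le (a : ℕ → ℝ) (ha : ∀ k, 0 ≤ a k) (M L t : ℕ) (hM : 0 < M) :
    (M : ℝ) * nxt a M L t ≤ A a L t := by
  have hM' : (0 : ℝ) < M := by exact_mod_cast hM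
  have h0 : 0 ≤ A a L t / M := div_nonneg (A_nonneg a ha L t) hM'.le
  have h1 : ((nxt a M L t : ℕ) : ℝ) ≤ A a L t / M := by
    have h2 : nxt a M L t ≤ ⌊A a L t / M⌋₊ := min_le_right _ _
    calc ((nxt a M L t : ℕ) : ℝ) ≤ (⌊A a L t / M⌋₊ : ℝ) := by exact_mod_cast h2
      _ ≤ A a L t / M := Nat.floor_le h0
  calc (M : ℝ) * nxt a M L t ≤ M * (A a L t / M) := mul_le_mul_of_nonneg_left h1 hM'.le
    _ = A a L t := by field_simp

/-- The next window is large. -/
theorem le_nxt (a : ℕ → ℝ) (M R L t : ℕ) (hM : 0 < M) (h : ((M * R : ℕ) : ℝ) * t ≤ A a L t) :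
    min L (R * t) ≤ nxt a M L t := by
  have hM' : (0 : ℝ) < M := by exact_mod_cast hM
  unfold nxt
  refine min_le_min (le_refl _) ?_
  apply Nat.le_floor
  rw [le_div_iff₀ hM']
  push_cast at h ⊢
  linarith

/-- If the next window is not everything, the mass is small. -/
theorem lt_of_nxt (a : ℕ → ℝ) (M L t : ℕ) (hM : 0 < M) (h : nxt a M L t < L) :
    A a L t ≤ M * (nxt a M L t + 1) := by
  have hM' : (0 : ℝ) < M := by exact_mod_cast hM
  have h1 : nxt a M L t = ⌊A a L t / M⌋₊ := by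
    unfold nxt at h ⊢
    rcases min_lt_iff.mp h with h2 | h2
    · exact absurd h2 (lt_irrefl _)
    · exact min_eq_right h2.le
  rw [h1]
  have h2 : A a L t / M < ⌊A a L t / M⌋₊ + 1 := Nat.lt_floor_add_one _
  rw [div_lt_iff₀ hM'] at h2
  linarith

/-- (D2) Boundedly many windows. -/
theorem specCover (h : SpecGrowth) : SpecCover := by
  intro a ha hcase
  have hcase' := hcase
  unfold CaseOne at hcase'
  push Not at hcase'
  obtain ⟨J, K, C, hJ⟩ := hcase'
  refine ⟨3 * J, fun M hM => ?_⟩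
  obtain ⟨T₀, hT₀⟩ := h a ha hcase (M * (2 * C * (M + 2) + 2))
  refine ⟨T₀ + K + 1, fun L t₀ ht hL => ?_⟩
  set R : ℕ := 2 * C * (M + 2) + 2 with hR
  have hR2 : 2 ≤ R := by omega
  -- the windows stay in the range and increase
  have hrange : ∀ i, T₀ + K + 1 ≤ seq a M L t₀ i ∧ seq a M L t₀ i ≤ L := by
    intro i
    induction i with
    | zero => exact ⟨ht, hL⟩
    | succ i ih =>
      have h1 := le_nxt a M R L (seq a M L t₀ i) hM (hT₀ L _ (by omega) ih.2)
      refine ⟨?_, min_le_left _ _⟩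
      refine le_trans ?_ h1
      refine le_min (le_trans ih.1 ih.2) ?_
      calc T₀ + K + 1 ≤ 1 * seq a M L t₀ i := by rw [one_mul]; exact ih.1
        _ ≤ R * seq a M L t₀ i := Nat.mul_le_mul_right _ (by omega)
  have hstep : ∀ i, min L (R * seq a M L t₀ i) ≤ seq a M L t₀ (i + 1) := fun i =>
    le_nxt a M R L (seq a M L t₀ i) hM (hT₀ L _ (by have := (hrange i).1; omega) (hrange i).2)
  have hmono : ∀ i, seq a M L t₀ i ≤ seq a M L t₀ (i + 1) := by
    intro i
    refine le_trans (le_min (hrange i).2 ?_) (hstep i)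
    calc seq a M L t₀ i = 1 * seq a M L t₀ i := (one_mul _).symm
      _ ≤ R * seq a M L t₀ i := Nat.mul_le_mul_right _ (by omega)
  have hmono' : Monotone (seq a M L t₀) := monotone_nat_of_le_succ hmono
  -- everything is reached
  have hend : seq a M L t₀ (3 * J) = L := by
    by_contra hne
    have hlt : seq a M L t₀ (3 * J) < L := lt_of_le_of_ne (hrange _).2 hne
    have hlt' : ∀ i, i ≤ 3 * J → seq a M L t₀ i < L := fun i hi =>
      lt_of_le_of_lt (hmono' hi) hlt
    have hgrow : ∀ i, i + 1 ≤ 3 * J → R * seq a M L t₀ i ≤ seq a M L t₀ (i + 1) := by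
      intro i hi
      rcases min_le_iff.mp (hstep i) with h1 | h1
      · exact absurd h1 (not_le.mpr (hlt' _ hi))
      · exact h1
    obtain ⟨i, hi, hi2⟩ := hJ L (fun j => seq a M L t₀ (3 * j))
      (by have := (hrange (3 * 0)).1; omega) (hlt.le)
    have e1 : 3 * (i + 1) = 3 * i + 2 + 1 := by ring
    have g0 := hgrow (3 * i) (by omega)
    have g1 := hgrow (3 * i + 1) (by omega)
    have g2 := hgrow (3 * i + 2) (by omega)
    have r0 := (hrange (3 * i)).1
    have r2 := (hrange (3 * i + 2)).1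
    have s0 : seq a M L t₀ (3 * i) + 1 ≤ seq a M L t₀ (3 * i + 1) := by
      have : 2 * seq a M L t₀ (3 * i) ≤ R * seq a M L t₀ (3 * i) := Nat.mul_le_mul_right _ hR2
      omega
    have m1 : A a L (seq a M L t₀ (3 * i) + 1) ≤ A a L (seq a M L t₀ (3 * i + 1)) :=
      A_mono a ha L _ _ s0
    have m2 : A a L (seq a M L t₀ (3 * i + 1)) ≤ M * (seq a M L t₀ (3 * i + 2) + 1) :=
      lt_of_nxt a M L (seq a M L t₀ (3 * i + 1)) hM (hlt' (3 * i + 2) (by omega))
    have s1 : seq a M L t₀ (3 * i) ≤ seq a M L t₀ (3 * i + 2) := hmono' (by omega)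
    simp only [e1] at hi2
    have hC : (0 : ℝ) ≤ C := Nat.cast_nonneg C
    have hMr : (0 : ℝ) ≤ M := Nat.cast_nonneg M
    have c1 : ((seq a M L t₀ (3 * i) : ℕ) : ℝ) ≤ (seq a M L t₀ (3 * i + 2) : ℕ) := by
      exact_mod_cast s1
    have c2 : (1 : ℝ) ≤ (seq a M L t₀ (3 * i + 2) : ℕ) := by
      have : 1 ≤ seq a M L t₀ (3 * i + 2) := by omega
      exact_mod_cast this
    have c3 : (R : ℝ) * (seq a M L t₀ (3 * i + 2) : ℕ) ≤ (seq a M L t₀ (3 * i + 2 + 1) : ℕ) := by
      exact_mod_cast g2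
    have hRr : (R : ℝ) = 2 * C * (M + 2) + 2 := by rw [hR]; push_cast; ring
    generalize ((seq a M L t₀ (3 * i + 2 + 1) : ℕ) : ℝ) = z at *
    generalize ((seq a M L t₀ (3 * i + 2) : ℕ) : ℝ) = y at *
    generalize ((seq a M L t₀ (3 * i) : ℕ) : ℝ) = x at *
    have k1 : A a L (seq a M L t₀ (3 * i) + 1) + x + 1 ≤ 2 * (M + 2) * y := by nlinarith
    have k2 : (C : ℝ) * (A a L (seq a M L t₀ (3 * i) + 1) + x + 1) ≤ C * (2 * (M + 2) * y) :=
      mul_le_mul_of_nonneg_left k1 hC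
    have k3 : z < C * (2 * (M + 2) * y) := lt_of_lt_of_le hi2 k2
    rw [hRr] at c3
    nlinarith
  -- the first time
  have hex : ∃ n, seq a M L t₀ n = L := ⟨_, hend⟩
  refine ⟨Nat.find hex, seq a M L t₀, Nat.find_min' hex hend, rfl, Nat.find_spec hex, ?_⟩
  intro i hi
  have hne : seq a M L t₀ i ≠ L := Nat.find_min hex hi
  have hlt : seq a M L t₀ i < L := lt_of_le_of_ne (hrange i).2 hne
  refine ⟨?_, nxt_le a ha M L _ hM⟩
  refine lt_of_lt_of_le (lt_min hlt ?_) (hstep i)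
  have h1 := (hrange i).1
  have h2 : 2 * seq a M L t₀ i ≤ R * seq a M L t₀ i := Nat.mul_le_mul_right _ hR2
  omega

end Pool.Agent.Lib.MP_b75bf2_nt.RND.CoverM
end

section
/-!
# Large deviations at one frequency

`E exp (x (1_B(n) - p n)) ≤ exp (x² p n)` for `|x| ≤ 1`; the Chernoff bound for weighted sums of the
indicators; applied to the real and the imaginary part of the exponential sum.
-/
set_option autoImplicit false
open Classical MeasureTheory ProbabilityTheory
open scoped Pointwise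

namespace Pool.Agent.Lib.MP_b75bf2_nt.RND

namespace DevM

/-- The indicator of `n ∈ B ω`. -/
noncomputable def ind {Ω : Type} (B : Ω → Set ℕ) (n : ℕ) (ω : Ω) : ℝ :=
  ({ω | n ∈ B ω} : Set Ω).indicator (fun _ => (1 : ℝ)) ω

theorem ind_nonneg {Ω : Type} (B : Ω → Set ℕ) (n : ℕ) (ω : Ω) : 0 ≤ ind B n ω := by
  unfold ind
  exact Set.indicator_nonneg (fun _ _ => zero_le_one) _

theorem ind_le_one {Ω : Type} (B : Ω → Set ℕ) (n : ℕ) (ω : Ω) : ind B n ω ≤ 1 := by
  unfold ind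
  exact Set.indicator_le_self' (fun _ _ => zero_le_one) _

theorem ind_eq {Ω : Type} (B : Ω → Set ℕ) (n : ℕ) (ω : Ω) :
    ind B n ω = if n ∈ B ω then 1 else 0 := by
  unfold ind
  simp [Set.indicator_apply]

section
variable {Ω : Type} [MeasurableSpace Ω] {μ : Measure Ω} {p : ℕ → ℝ} {B : Ω → Set ℕ}

theorem ind_measurable (h : Rnd μ p B) (n : ℕ) : Measurable (ind B n) := by
  unfold ind
  exact measurable_const.indicator (h.meas n)

/-- The generating function of one centred indicator. -/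
theorem mgf_le (h : Rnd μ p B) (n : ℕ) (hn : 1 ≤ n) (x : ℝ) (hx : |x| ≤ 1) :
    ∫ ω, Real.exp (x * (ind B n ω - p n)) ∂μ ≤ Real.exp (x ^ 2 * p n) := by
  have := h.prob
  have hreal : μ.real {ω | n ∈ B ω} = p n := by
    rw [Measure.real, h.mass n hn, ENNReal.toReal_ofReal (h.nonneg n)]
  have key : ∀ ω, Real.exp (x * (ind B n ω - p n))
      = Real.exp (-(x * p n)) + Real.exp (-(x * p n)) * (Real.exp x - 1) * ind B n ω := by
    intro ω
    rw [ind_eq]
    by_cases hω : n ∈ B ω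
    · simp only [hω, if_true, mul_one]
      rw [show x * (1 - p n) = -(x * p n) + x by ring, Real.exp_add]
      ring
    · simp only [hω, if_false, mul_zero, add_zero]
      congr 1
      ring
  have hint : Integrable (ind B n) μ := by
    refine Integrable.of_bound (ind_measurable h n).aestronglyMeasurable 1 ?_
    refine Filter.Eventually.of_forall fun ω => ?_
    rw [Real.norm_eq_abs, abs_of_nonneg (ind_nonneg B n ω)]
    exact ind_le_one B n ω
  have hI : ∫ ω, ind B n ω ∂μ = p n := by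
    unfold ind
    rw [integral_indicator (h.meas n)]
    simp [hreal]
  calc ∫ ω, Real.exp (x * (ind B n ω - p n)) ∂μ
      = ∫ ω, (Real.exp (-(x * p n)) + Real.exp (-(x * p n)) * (Real.exp x - 1) * ind B n ω) ∂μ := by
        simp_rw [key]
    _ = Real.exp (-(x * p n)) + Real.exp (-(x * p n)) * (Real.exp x - 1) * p n := by
        rw [integral_add (integrable_const _) (hint.const_mul _), integral_const_mul, hI]
        simp
    _ = Real.exp (-(x * p n)) * ((Real.exp x - 1) * p n + 1) := by ring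
    _ ≤ Real.exp (-(x * p n)) * Real.exp ((Real.exp x - 1) * p n) := by
        gcongr
        exact Real.add_one_le_exp _
    _ = Real.exp ((Real.exp x - 1 - x) * p n) := by
        rw [← Real.exp_add]
        congr 1
        ring
    _ ≤ Real.exp (x ^ 2 * p n) := by
        gcongr
        · exact h.nonneg n
        · exact (le_abs_self _).trans (Real.abs_exp_sub_one_sub_id_le hx)

/-- Chernoff. -/
theorem chernoff (h : Rnd μ p B) (F : Finset ℕ) (hF : ∀ n ∈ F, 1 ≤ n) (c : ℕ → ℝ)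
    (hc : ∀ n ∈ F, |c n| ≤ 1) (V s l : ℝ) (hV : ∑ n ∈ F, c n ^ 2 * p n ≤ V) (hl : 0 ≤ l)
    (hl1 : l ≤ 1) :
    μ {ω | s ≤ ∑ n ∈ F, c n * (ind B n ω - p n)} ≤
      ENNReal.ofReal (Real.exp (-(l * s) + l ^ 2 * V)) := by
  have := h.prob
  set X : ℕ → Ω → ℝ := fun n ω => c n * (ind B n ω - p n) with hX
  have hindep : iIndepFun X μ := by
    have h0 : iIndepFun (fun n => ({ω | n ∈ B ω} : Set Ω).indicator fun _ω => (1 : ℝ)) μ :=
      h.indep.iIndepFun_indicator
    exact h0.comp (fun n x => c n * (x - p n)) (fun n => by fun_prop)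
  have hmeas : ∀ n, Measurable (X n) := by
    intro n
    have := ind_measurable h n
    simp only [hX]
    fun_prop
  have hbd : ∀ n ω, |X n ω| ≤ |c n| * (1 + |p n|) := by
    intro n ω
    simp only [hX]
    rw [abs_mul]
    gcongr
    calc |ind B n ω - p n| ≤ |ind B n ω| + |p n| := abs_sub _ _
      _ ≤ 1 + |p n| := by
          rw [abs_of_nonneg (ind_nonneg B n ω)]
          linarith [ind_le_one B n ω]
  have hmgf : mgf (∑ n ∈ F, X n) μ l ≤ Real.exp (l ^ 2 * V) := by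
    rw [hindep.mgf_sum hmeas F]
    calc ∏ n ∈ F, mgf (X n) μ l ≤ ∏ n ∈ F, Real.exp (l ^ 2 * (c n ^ 2 * p n)) := by
          refine Finset.prod_le_prod (fun n _ => mgf_nonneg) fun n hn => ?_
          have h1 : |l * c n| ≤ 1 := by
            rw [abs_mul, abs_of_nonneg hl]
            nlinarith [hc n hn, abs_nonneg (c n)]
          have h2 := mgf_le h n (hF n hn) (l * c n) h1
          unfold mgf
          simp only [hX]
          calc ∫ ω, Real.exp (l * (c n * (ind B n ω - p n))) ∂μ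
              = ∫ ω, Real.exp (l * c n * (ind B n ω - p n)) ∂μ := by
                congr 1
                ext ω
                rw [mul_assoc]
            _ ≤ Real.exp ((l * c n) ^ 2 * p n) := h2
            _ = Real.exp (l ^ 2 * (c n ^ 2 * p n)) := by
                congr 1
                ring
      _ = Real.exp (l ^ 2 * ∑ n ∈ F, c n ^ 2 * p n) := by
          rw [← Real.exp_sum, Finset.mul_sum]
      _ ≤ Real.exp (l ^ 2 * V) := by gcongr
  have hint : Integrable (fun ω => Real.exp (l * (∑ n ∈ F, X n) ω)) μ := by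
    refine Integrable.of_bound ?_ (Real.exp (l * ∑ n ∈ F, |c n| * (1 + |p n|))) ?_
    · have : Measurable (∑ n ∈ F, X n) := by
        have h1 := Finset.measurable_sum F (fun n (_ : n ∈ F) => hmeas n)
        have h2 : (∑ n ∈ F, X n) = fun ω => ∑ n ∈ F, X n ω := by
          ext ω
          rw [Finset.sum_apply]
        rw [h2]
        exact h1
      exact (Real.measurable_exp.comp (this.const_mul l)).aestronglyMeasurable
    · refine Filter.Eventually.of_forall fun ω => ?_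
      rw [Real.norm_eq_abs, abs_of_pos (Real.exp_pos _)]
      gcongr
      rw [Finset.sum_apply]
      exact Finset.sum_le_sum fun n _ => (le_abs_self _).trans (hbd n ω)
  have hch := measure_ge_le_exp_mul_mgf (μ := μ) (X := ∑ n ∈ F, X n) s hl hint
  have hset : {ω | s ≤ ∑ n ∈ F, c n * (ind B n ω - p n)} = {ω | s ≤ (∑ n ∈ F, X n) ω} := by
    ext ω
    simp only [Set.mem_ofPred_eq, Finset.sum_apply, hX]
  rw [hset, ← ENNReal.ofReal_toReal (measure_ne_top μ {ω | s ≤ (∑ n ∈ F, X n) ω})]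
  refine ENNReal.ofReal_le_ofReal ?_
  calc (μ {ω | s ≤ (∑ n ∈ F, X n) ω}).toReal ≤ Real.exp (-l * s) * mgf (∑ n ∈ F, X n) μ l := hch
    _ ≤ Real.exp (-l * s) * Real.exp (l ^ 2 * V) := by gcongr
    _ = Real.exp (-(l * s) + l ^ 2 * V) := by
        rw [← Real.exp_add]
        congr 1
        ring

end

theorem W_pos (L t : ℕ) : ∀ n ∈ W L t, 1 ≤ n := by
  intro n hn
  rw [W, Finset.mem_Ioc] at hn
  have := Nat.zero_le (2 ^ (L - t))
  exact Nat.one_le_iff_ne_zero.2 (by intro h0; rw [h0] at hn; exact absurd hn.1 (Nat.not_lt_zero _))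

section
variable {Ω : Type} [MeasurableSpace Ω] {μ : Measure Ω} {p : ℕ → ℝ} {B : Ω → Set ℕ}

theorem q_le (h : Rnd μ p B) (n : ℕ) (hn : 1 ≤ n) : q p n ≤ p n := by
  unfold q
  exact h.anti n _ hn (Nat.le_pow_clog (by norm_num) n)

theorem q_nonneg (h : Rnd μ p B) (n : ℕ) : 0 ≤ q p n := h.nonneg _

theorem wt_nonneg (h : Rnd μ p B) (n : ℕ) : 0 ≤ wt p n :=
  div_nonneg (q_nonneg h n) (h.nonneg n)

theorem wt_le_one (h : Rnd μ p B) (n : ℕ) (hn : 1 ≤ n) : wt p n ≤ 1 :=
  div_le_one_of_le₀ (q_le h n hn) (h.nonneg n)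

theorem wt_mul (h : Rnd μ p B) (n : ℕ) (hn : 1 ≤ n) : wt p n * p n = q p n := by
  unfold wt
  rcases eq_or_ne (p n) 0 with h0 | h0
  · have := q_le h n hn
    have h2 := q_nonneg h n
    rw [h0] at this ⊢
    simp
    linarith
  · field_simp

/-- One of the four deviations. -/
theorem one (h : Rnd μ p B) (L t : ℕ) (A₀ : ℝ) (hA : ∑ n ∈ W L t, q p n = A₀) (ε : ℝ)
    (hε : 0 < ε) (hε1 : ε ≤ 1) (u : ℕ → ℝ) (hu : ∀ n, |u n| ≤ 1) :
    μ {ω | ε * A₀ / 2 ≤ ∑ n ∈ W L t, (wt p n * u n) * (ind B n ω - p n)} ≤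
      ENNReal.ofReal (Real.exp (-(ε ^ 2 * A₀ / 16))) := by
  have hV : ∑ n ∈ W L t, (wt p n * u n) ^ 2 * p n ≤ A₀ := by
    rw [← hA]
    refine Finset.sum_le_sum fun n hn => ?_
    have hn1 := W_pos L t n hn
    have h1 := wt_nonneg h n
    have h2 := wt_le_one h n hn1
    have h3 := wt_mul h n hn1
    have h4 : u n ^ 2 ≤ 1 := by
      have := hu n
      rw [← sq_abs]
      nlinarith [abs_nonneg (u n)]
    have h5 := q_nonneg h n (p := p)
    calc (wt p n * u n) ^ 2 * p n = (wt p n * p n) * (wt p n * u n ^ 2) := by ring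
      _ = q p n * (wt p n * u n ^ 2) := by rw [h3]
      _ ≤ q p n * 1 := by
          gcongr
          nlinarith [sq_nonneg (u n)]
      _ = q p n := mul_one _
  have hc : ∀ n ∈ W L t, |wt p n * u n| ≤ 1 := by
    intro n hn
    have hn1 := W_pos L t n hn
    rw [abs_mul, abs_of_nonneg (wt_nonneg h n)]
    exact mul_le_one₀ (wt_le_one h n hn1) (abs_nonneg _) (hu n)
  have := chernoff h (W L t) (W_pos L t) (fun n => wt p n * u n) hc A₀ (ε * A₀ / 2) (ε / 4) hV
    (by positivity) (by linarith)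
  refine this.trans (le_of_eq ?_)
  congr 2
  ring

end

end DevM

open DevM in
theorem specDev : SpecDev := by
  intro hP Ω _ μ p B h L t θ ε ht hε hε1
  have hA : ∑ n ∈ W L t, q p n = A (blk p) L t := hP p h.nonneg L t ht
  set A₀ := A (blk p) L t with hA₀
  -- real and imaginary part of the character
  set u : ℕ → ℝ := fun n => (e (n * θ)).re with hu
  set v : ℕ → ℝ := fun n => (e (n * θ)).im with hv
  have hnorm : ∀ x : ℝ, ‖e x‖ = 1 := by
    intro x
    unfold e
    rw [show (2 * Real.pi * Complex.I * x : ℂ) = ((2 * Real.pi * x : ℝ) : ℂ) * Complex.I by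
      push_cast; ring]
    exact Complex.norm_exp_ofReal_mul_I _
  have hu1 : ∀ n, |u n| ≤ 1 := fun n => by
    simpa [hu, hnorm] using Complex.abs_re_le_norm (e (n * θ))
  have hv1 : ∀ n, |v n| ≤ 1 := fun n => by
    simpa [hv, hnorm] using Complex.abs_im_le_norm (e (n * θ))
  -- the difference
  have hdiff : ∀ ω, S p (B ω) L t θ - ∑ n ∈ W L t, (q p n : ℂ) * e (n * θ)
      = ∑ n ∈ W L t, ((wt p n * (ind B n ω - p n) : ℝ) : ℂ) * e (n * θ) := by
    intro ω
    unfold S
    rw [Finset.sum_filter, ← Finset.sum_sub_distrib]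
    refine Finset.sum_congr rfl fun n hn => ?_
    have h3 := wt_mul h n (W_pos L t n hn)
    rw [← h3, ind_eq]
    by_cases hω : n ∈ B ω
    · simp only [hω, if_true]
      push_cast
      ring
    · simp only [hω, if_false]
      push_cast
      ring
  have hre : ∀ ω, (S p (B ω) L t θ - ∑ n ∈ W L t, (q p n : ℂ) * e (n * θ)).re
      = ∑ n ∈ W L t, (wt p n * u n) * (ind B n ω - p n) := by
    intro ω
    rw [hdiff, Complex.re_sum]
    refine Finset.sum_congr rfl fun n _ => ?_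
    rw [Complex.re_ofReal_mul]
    ring
  have him : ∀ ω, (S p (B ω) L t θ - ∑ n ∈ W L t, (q p n : ℂ) * e (n * θ)).im
      = ∑ n ∈ W L t, (wt p n * v n) * (ind B n ω - p n) := by
    intro ω
    rw [hdiff, Complex.im_sum]
    refine Finset.sum_congr rfl fun n _ => ?_
    rw [Complex.im_ofReal_mul]
    ring
  have hneg : ∀ (w : ℕ → ℝ) ω, ∑ n ∈ W L t, (wt p n * (-w n)) * (ind B n ω - p n)
      = -∑ n ∈ W L t, (wt p n * w n) * (ind B n ω - p n) := by
    intro w ω
    rw [← Finset.sum_neg_distrib]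
    refine Finset.sum_congr rfl fun n _ => ?_
    ring
  have hsub : {ω | ε * A₀ < ‖S p (B ω) L t θ - ∑ n ∈ W L t, (q p n : ℂ) * e (n * θ)‖} ⊆
      (({ω | ε * A₀ / 2 ≤ ∑ n ∈ W L t, (wt p n * u n) * (ind B n ω - p n)} ∪
        {ω | ε * A₀ / 2 ≤ ∑ n ∈ W L t, (wt p n * (-u n)) * (ind B n ω - p n)}) ∪
      ({ω | ε * A₀ / 2 ≤ ∑ n ∈ W L t, (wt p n * v n) * (ind B n ω - p n)} ∪
        {ω | ε * A₀ / 2 ≤ ∑ n ∈ W L t, (wt p n * (-v n)) * (ind B n ω - p n)})) := by
    intro ω hω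
    simp only [Set.mem_ofPred_eq] at hω
    simp only [Set.mem_union, Set.mem_ofPred_eq]
    rw [hneg u ω, hneg v ω, ← hre ω, ← him ω]
    by_contra hcon
    push Not at hcon
    obtain ⟨⟨h1, h2⟩, h3, h4⟩ := hcon
    have h5 := Complex.norm_le_abs_re_add_abs_im
      (S p (B ω) L t θ - ∑ n ∈ W L t, (q p n : ℂ) * e (n * θ))
    have h6 : |(S p (B ω) L t θ - ∑ n ∈ W L t, (q p n : ℂ) * e (n * θ)).re| < ε * A₀ / 2 :=
      abs_lt.2 ⟨by linarith, h1⟩
    have h7 : |(S p (B ω) L t θ - ∑ n ∈ W L t, (q p n : ℂ) * e (n * θ)).im| < ε * A₀ / 2 :=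
      abs_lt.2 ⟨by linarith, h3⟩
    linarith
  have hun : ∀ n, |(fun n => -u n) n| ≤ 1 := fun n => by simpa using hu1 n
  have hvn : ∀ n, |(fun n => -v n) n| ≤ 1 := fun n => by simpa using hv1 n
  calc μ {ω | ε * A₀ < ‖S p (B ω) L t θ - ∑ n ∈ W L t, (q p n : ℂ) * e (n * θ)‖}
      ≤ _ := measure_mono hsub
    _ ≤ (ENNReal.ofReal (Real.exp (-(ε ^ 2 * A₀ / 16))) +
          ENNReal.ofReal (Real.exp (-(ε ^ 2 * A₀ / 16)))) +
        (ENNReal.ofReal (Real.exp (-(ε ^ 2 * A₀ / 16))) +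
          ENNReal.ofReal (Real.exp (-(ε ^ 2 * A₀ / 16)))) := by
        refine (measure_union_le _ _).trans (add_le_add ?_ ?_)
        · exact (measure_union_le _ _).trans
            (add_le_add (one h L t A₀ hA ε hε hε1 u hu1) (one h L t A₀ hA ε hε hε1 _ hun))
        · exact (measure_union_le _ _).trans
            (add_le_add (one h L t A₀ hA ε hε hε1 v hv1) (one h L t A₀ hA ε hε hε1 _ hvn))
    _ = ENNReal.ofReal (4 * Real.exp (-(ε ^ 2 * A₀ / 16))) := by
        have h0 : 0 ≤ Real.exp (-(ε ^ 2 * A₀ / 16)) := (Real.exp_pos _).le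
        rw [← ENNReal.ofReal_add h0 h0, ← ENNReal.ofReal_add (by positivity) (by positivity)]
        congr 1
        ring

end Pool.Agent.Lib.MP_b75bf2_nt.RND
end

section
/-!
# Random sets: sums of the lowered probabilities (P1)
-/
set_option autoImplicit false
open Classical MeasureTheory ProbabilityTheory
open scoped Pointwise

namespace Pool.Agent.Lib.MP_b75bf2_nt.RND.ExpM

/-- The window `(2 ^ a, 2 ^ b]` splits into dyadic blocks. -/
theorem sum_blocks {E : Type*} [AddCommMonoid E] (f : ℕ → E) {a b : ℕ} (hab : a ≤ b) :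
    ∑ n ∈ Finset.Ioc (2 ^ a) (2 ^ b), f n =
      ∑ k ∈ Finset.Ico a b, ∑ n ∈ Finset.Ioc (2 ^ k) (2 ^ (k + 1)), f n := by
  induction b, hab using Nat.le_induction with
  | base => simp
  | succ b hab ih =>
    rw [Finset.sum_Ico_succ_top hab, ← ih]
    have h1 : (2 : ℕ) ^ a ≤ 2 ^ b := Nat.pow_le_pow_right (by norm_num) hab
    have h2 : (2 : ℕ) ^ b ≤ 2 ^ (b + 1) := Nat.pow_le_pow_right (by norm_num) (by omega)
    rw [← Finset.sum_union]
    · congr 1
      ext n
      simp only [Finset.mem_Ioc, Finset.mem_union]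
      omega
    · rw [Finset.disjoint_left]
      intro n hn hn'
      simp only [Finset.mem_Ioc] at hn hn'
      omega

theorem clog_block {k n : ℕ} (hn : n ∈ Finset.Ioc (2 ^ k) (2 ^ (k + 1))) :
    Nat.clog 2 n = k + 1 := by
  rw [Finset.mem_Ioc] at hn
  apply le_antisymm
  · exact Nat.clog_le_of_le_pow hn.2
  · exact Nat.lt_clog_iff_pow_lt (by norm_num) |>.2 hn.1

theorem q_block (p : ℕ → ℝ) {k n : ℕ} (hn : n ∈ Finset.Ioc (2 ^ k) (2 ^ (k + 1))) :
    q p n = p (2 ^ (k + 1)) := by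
  rw [q, clog_block hn]

theorem card_block (k : ℕ) : (Finset.Ioc (2 ^ k) (2 ^ (k + 1))).card = 2 ^ k := by
  rw [Nat.card_Ioc, pow_succ]
  omega

theorem e_mul (n : ℕ) (θ : ℝ) : e (n * θ) = e θ ^ n := by
  unfold e
  rw [← Complex.exp_nat_mul]
  congr 1
  push_cast
  ring

theorem norm_e (x : ℝ) : ‖e x‖ = 1 := by
  unfold e
  rw [show (2 * Real.pi * Complex.I * x : ℂ) = ((2 * Real.pi * x : ℝ) : ℂ) * Complex.I by
    push_cast; ring]
  exact Complex.norm_exp_ofReal_mul_I _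

theorem norm_e_sub (θ : ℝ) : 4 * |θ - round θ| ≤ ‖e θ - 1‖ := by
  have h1 : e θ = Complex.exp (Complex.I * ((2 * Real.pi * θ : ℝ) : ℂ)) := by
    unfold e
    congr 1
    push_cast
    ring
  rw [h1, Complex.norm_exp_I_mul_ofReal_sub_one, Real.norm_eq_abs, abs_mul, abs_two]
  have h2 : Real.sin (2 * Real.pi * θ / 2) = Real.sin (Real.pi * θ) := by
    congr 1; ring
  rw [h2]
  have h3 : |Real.sin (Real.pi * θ)| = |Real.sin (Real.pi * (θ - round θ))| := by
    have h4 : Real.pi * θ = Real.pi * (θ - round θ) + (round θ : ℤ) * Real.pi := by ring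
    rw [h4, Real.sin_add_int_mul_pi, abs_mul, abs_zpow, abs_neg, abs_one, one_zpow, one_mul]
  rw [h3]
  have h5 : |Real.pi * (θ - round θ)| ≤ Real.pi / 2 := by
    rw [abs_mul, abs_of_pos Real.pi_pos]
    have := abs_sub_round θ
    nlinarith [Real.pi_pos]
  have h6 := Real.mul_abs_le_abs_sin h5
  rw [abs_mul, abs_of_pos Real.pi_pos] at h6
  have h7 : 2 / Real.pi * (Real.pi * |θ - round θ|) = 2 * |θ - round θ| := by
    field_simp
  rw [h7] at h6
  linarith

theorem geom_le {z : ℂ} (hz : ‖z‖ = 1) (a b : ℕ) :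
    ‖∑ n ∈ Finset.Ioc a b, z ^ n‖ * ‖z - 1‖ ≤ 2 := by
  rw [← norm_mul]
  rcases le_total b a with h | h
  · rw [Finset.Ioc_eq_empty (by omega)]
    simp
  · have h1 : Finset.Ioc a b = Finset.Ico (a + 1) (b + 1) := by
      ext n
      simp only [Finset.mem_Ioc, Finset.mem_Ico]
      omega
    rw [h1, geom_sum_Ico_mul z (by omega)]
    calc ‖z ^ (b + 1) - z ^ (a + 1)‖ ≤ ‖z ^ (b + 1)‖ + ‖z ^ (a + 1)‖ := norm_sub_le _ _
      _ = 2 := by rw [norm_pow, norm_pow, hz]; norm_num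

theorem specExp : SpecExp := by
  intro p hp L t htL
  have hlt : L - t ≤ L := by omega
  refine ⟨?_, ?_⟩
  · unfold W A blk
    rw [sum_blocks _ hlt]
    refine Finset.sum_congr rfl fun k _ => ?_
    rw [Finset.sum_congr rfl fun n hn => q_block p hn, Finset.sum_const, card_block, nsmul_eq_mul]
    push_cast
    ring
  · intro C θ hθ
    unfold W A blk
    rw [sum_blocks _ hlt]
    have hd : (2 : ℝ) ^ (t + C) / 2 ^ L ≤ |θ - round θ| := hθ (round θ)
    have hz := norm_e_sub θ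
    have hpos : (0 : ℝ) < 2 ^ (t + C) / 2 ^ L := by positivity
    calc ‖∑ k ∈ Finset.Ico (L - t) L, ∑ n ∈ Finset.Ioc (2 ^ k) (2 ^ (k + 1)),
          (q p n : ℂ) * e (n * θ)‖ * 2 ^ C
        ≤ (∑ k ∈ Finset.Ico (L - t) L, ‖∑ n ∈ Finset.Ioc (2 ^ k) (2 ^ (k + 1)),
          (q p n : ℂ) * e (n * θ)‖) * 2 ^ C := by
          gcongr
          exact norm_sum_le _ _
      _ = ∑ k ∈ Finset.Ico (L - t) L, ‖∑ n ∈ Finset.Ioc (2 ^ k) (2 ^ (k + 1)),
          (q p n : ℂ) * e (n * θ)‖ * 2 ^ C := Finset.sum_mul _ _ _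
      _ ≤ ∑ k ∈ Finset.Ico (L - t) L, 2 ^ k * p (2 ^ (k + 1)) := by
          refine Finset.sum_le_sum fun k hk => ?_
          rw [Finset.mem_Ico] at hk
          have h1 : ∑ n ∈ Finset.Ioc (2 ^ k) (2 ^ (k + 1)), (q p n : ℂ) * e (n * θ) =
              (p (2 ^ (k + 1)) : ℂ) * ∑ n ∈ Finset.Ioc (2 ^ k) (2 ^ (k + 1)), e θ ^ n := by
            rw [Finset.mul_sum]
            refine Finset.sum_congr rfl fun n hn => ?_
            rw [q_block p hn, e_mul]
          rw [h1, norm_mul, Complex.norm_real, Real.norm_eq_abs, abs_of_nonneg (hp _)]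
          have h2 := geom_le (norm_e θ) (2 ^ k) (2 ^ (k + 1))
          set G := ‖∑ n ∈ Finset.Ioc (2 ^ k) (2 ^ (k + 1)), e θ ^ n‖ with hG
          have hG0 : 0 ≤ G := norm_nonneg _
          have h3 : G * (4 * (2 ^ (t + C) / 2 ^ L)) ≤ 2 := by
            refine le_trans ?_ h2
            gcongr
            linarith
          have h4 : (2 : ℝ) ^ L ≤ 2 ^ t * 2 ^ k := by
            rw [← pow_add]
            exact pow_le_pow_right₀ (by norm_num) (by omega)
          have h5 : G * 2 ^ C ≤ 2 ^ k := by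
            have h6 : G * 2 ^ C * (2 ^ t * 4) ≤ 2 * 2 ^ L := by
              have h7 : G * (4 * (2 ^ (t + C) / 2 ^ L)) * 2 ^ L = G * 2 ^ C * (2 ^ t * 4) := by
                rw [pow_add]
                field_simp
              rw [← h7]
              exact mul_le_mul_of_nonneg_right h3 (by positivity)
            have h8 : (0 : ℝ) < 2 ^ t := by positivity
            have h10 : (0 : ℝ) ≤ 2 ^ t * 2 ^ k := by positivity
            have h9 : G * 2 ^ C * (2 ^ t * 4) ≤ 2 ^ k * (2 ^ t * 4) := by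
              calc G * 2 ^ C * (2 ^ t * 4) ≤ 2 * 2 ^ L := h6
                _ ≤ 2 * (2 ^ t * 2 ^ k) := by linarith
                _ ≤ 2 ^ k * (2 ^ t * 4) := by linarith
            exact le_of_mul_le_mul_right h9 (by positivity)
          calc p (2 ^ (k + 1)) * G * 2 ^ C = p (2 ^ (k + 1)) * (G * 2 ^ C) := by ring
            _ ≤ p (2 ^ (k + 1)) * 2 ^ k := mul_le_mul_of_nonneg_left h5 (hp _)
            _ = 2 ^ k * p (2 ^ (k + 1)) := by ring

end Pool.Agent.Lib.MP_b75bf2_nt.RND.ExpM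
end

section
/-!
# Assembly
-/
set_option autoImplicit false
open Classical MeasureTheory ProbabilityTheory
open scoped Pointwise

namespace Pool.Agent.Lib.MP_b75bf2_nt.RND.FinalM

/-- Phases show that `B` is not essential. -/
lemma not_essential (hPh : CAP.SpecPhase) {B : Set ℕ} {s : ℕ} (h0 : 0 ∈ B) (h : PhaseIn B s) :
    ¬ Essential B := by
  intro hE
  obtain ⟨X, hX0, hX1, hX2⟩ := hPh B s h
  have hsub : X ⊆ X + B := fun x hx => ⟨x, hx, 0, h0, by simp⟩
  have h1 : schnirelmannDensity X ≤ schnirelmannDensity (X + B) :=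
    schnirelmannDensity_le_of_subset hsub
  have h2 := hE X hX0 (by linarith) (by linarith)
  linarith

theorem specFinal (hPh : CAP.SpecPhase) (hM : SpecMain) (hC : SpecCaseOne) (hG : SpecGaps)
    (hGP : SpecGapPhase) : SpecFinal := by
  intro Ω _ μ p B hR
  by_cases h1 : CaseOne (blk p)
  · left
    filter_upwards [hC Ω μ p B hR h1] with ω hω
    exact not_essential hPh (hR.zero ω) hω
  by_cases h2 : Dense (blk p)
  · right
    obtain ⟨N, hN⟩ := hM Ω μ p B hR h1 h2
    filter_upwards [hN] with ω hω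
    exact spectral_sums (hR.zero ω) N hω
  · left
    have h3 : ∀ᵐ ω ∂μ, ∀ K : ℕ, ∀ L₀ : ℕ, ∃ L : ℕ, L₀ ≤ L ∧ K ≤ L ∧
        ∀ n ∈ B ω, ¬ (2 ^ (L - K) < n ∧ n ≤ 2 ^ L) :=
      ae_all_iff.2 (fun K => hG Ω μ p B hR h2 K)
    filter_upwards [h3] with ω hω
    exact not_essential hPh (hR.zero ω) (hGP (B ω) hω)

end Pool.Agent.Lib.MP_b75bf2_nt.RND.FinalM
end

section
/-!
# Gaps give phases
-/
set_option autoImplicit false
open Classical MeasureTheory ProbabilityTheory
open scoped Pointwise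

namespace Pool.Agent.Lib.MP_b75bf2_nt.RND.GapPhaseM

/-- Distance to the nearest integer of a small number. -/
lemma dist_le (x : ℝ) (hx : 0 ≤ x) : |x - round x| ≤ x := by
  have h := round_le x 0
  simpa [abs_of_nonneg hx] using h

/-- Few elements below the end of a gap. -/
lemma cnt_gap (B : Set ℕ) (L K : ℕ) (hgap : ∀ n ∈ B, ¬ (2 ^ (L - K) < n ∧ n ≤ 2 ^ L)) :
    cnt B (2 ^ L) ≤ 2 ^ (L - K) := by
  unfold cnt
  have hsub : (Finset.Ioc 0 (2 ^ L)).filter (fun a => a ∈ B) ⊆ Finset.Ioc 0 (2 ^ (L - K)) := by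
    intro a ha
    rw [Finset.mem_filter, Finset.mem_Ioc] at ha
    rw [Finset.mem_Ioc]
    refine ⟨ha.1.1, ?_⟩
    by_contra hlt
    exact hgap a ha.2 ⟨not_le.1 hlt, ha.1.2⟩
  calc _ ≤ (Finset.Ioc 0 (2 ^ (L - K))).card := Finset.card_le_card hsub
    _ = 2 ^ (L - K) := by simp

theorem specGapPhase : SpecGapPhase := by
  intro B hB m q
  obtain ⟨L, hL0, hKL, hgap⟩ := hB (q * (m + 1) + q + 2) 0
  have hpow : (0 : ℝ) < 2 ^ L := by positivity
  have hK : q * (m + 1) ≤ L := by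
    have : q * (m + 1) ≤ q * (m + 1) + q + 2 := by omega
    exact this.trans hKL
  refine ⟨2 ^ L, fun k => 2 ^ (q * (k + 1)) / 2 ^ L, by positivity, ?_, ?_, ?_, ?_, ?_, ?_⟩
  · intro k _
    positivity
  · intro k _
    apply le_of_eq
    have : (2 : ℝ) ^ (q * (k + 1 + 1)) = 2 ^ q * 2 ^ (q * (k + 1)) := by
      rw [← pow_add]
      congr 1
      ring
    show (2 : ℝ) ^ q * (2 ^ (q * (k + 1)) / 2 ^ L) = 2 ^ (q * (k + 1 + 1)) / 2 ^ L
    rw [this]
    ring
  · intro k _
    show (2 : ℝ) ^ q ≤ 2 ^ (q * (k + 1)) / 2 ^ L * ((2 ^ L : ℕ) : ℝ)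
    push_cast
    rw [div_mul_cancel₀ _ hpow.ne']
    exact pow_le_pow_right₀ (by norm_num) (by nlinarith)
  · intro k hk
    show (2 : ℝ) ^ q * (2 ^ (q * (k + 1)) / 2 ^ L) ≤ 1
    rw [← mul_div_assoc, div_le_one hpow, ← pow_add]
    refine pow_le_pow_right₀ (by norm_num) ?_
    have : q + q * (k + 1) ≤ q * (m + 1) := by
      have : k + 1 ≤ m := hk
      nlinarith
    omega
  · have h1 := cnt_gap B L _ hgap
    have h2 : cnt B (2 ^ L) + 1 ≤ 2 * 2 ^ (L - (q * (m + 1) + q + 2)) := by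
      have : 1 ≤ 2 ^ (L - (q * (m + 1) + q + 2)) := Nat.one_le_two_pow
      omega
    calc 2 ^ q * (cnt B (2 ^ L) + 1) ≤ 2 ^ q * (2 * 2 ^ (L - (q * (m + 1) + q + 2))) :=
          Nat.mul_le_mul_left _ h2
      _ = 2 ^ (q + 1 + (L - (q * (m + 1) + q + 2))) := by
          rw [pow_add, pow_succ]
          ring
      _ ≤ 2 ^ L := by
          refine Nat.pow_le_pow_right (by norm_num) ?_
          generalize q * (m + 1) = u at hKL ⊢
          omega
  · intro b hb hbN
    rw [Nat.le_zero, Finset.card_eq_zero, Finset.filter_eq_empty_iff]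
    intro k hk
    rw [Finset.mem_range] at hk
    rw [not_lt]
    have hb' : b ≤ 2 ^ (L - (q * (m + 1) + q + 2)) := by
      by_contra hlt
      exact hgap b hb ⟨not_le.1 hlt, hbN⟩
    have hbR : (b : ℝ) ≤ 2 ^ (L - (q * (m + 1) + q + 2)) := by exact_mod_cast hb'
    have hnn : (0 : ℝ) ≤ 2 ^ (q * (k + 1)) / 2 ^ L * b := by positivity
    have h1 := dist_le _ hnn
    have h2 : (2 : ℝ) ^ q * (2 ^ (q * (k + 1)) / 2 ^ L * b) ≤ 1 := by
      have h3 : (2 : ℝ) ^ q * (2 ^ (q * (k + 1)) / 2 ^ L * b) ≤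
          2 ^ q * (2 ^ (q * (k + 1)) / 2 ^ L * 2 ^ (L - (q * (m + 1) + q + 2))) := by
        gcongr
      refine h3.trans ?_
      rw [div_mul_eq_mul_div, ← mul_div_assoc, div_le_one hpow, ← pow_add, ← pow_add]
      refine pow_le_pow_right₀ (by norm_num) ?_
      have h4 : q * (k + 1) ≤ q * (m + 1) := by
        have : k + 1 ≤ m + 1 := by omega
        exact Nat.mul_le_mul_left _ this
      generalize q * (m + 1) = u at hKL h4 ⊢
      omega
    calc (2 : ℝ) ^ q * |2 ^ (q * (k + 1)) / 2 ^ L * (b : ℝ) -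
            round (2 ^ (q * (k + 1)) / 2 ^ L * (b : ℝ))|
        ≤ 2 ^ q * (2 ^ (q * (k + 1)) / 2 ^ L * b) := by gcongr
      _ ≤ 1 := h2

end Pool.Agent.Lib.MP_b75bf2_nt.RND.GapPhaseM
end

section
/-!
# Case two: almost surely there are infinitely many long gaps

The windows `(2 ^ (r + K j), 2 ^ (r + K (j + 1))]`, `j = 0, 1, ...`, are disjoint; the events that
they contain no element of `B` are independent, and their probabilities have an infinite sum for
one of the residues `r` modulo `K`.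
-/
set_option autoImplicit false
open Classical MeasureTheory ProbabilityTheory
open scoped Pointwise

namespace Pool.Agent.Lib.MP_b75bf2_nt.RND.GapsM

lemma blk_nonneg {p : ℕ → ℝ} (h : ∀ n, 0 ≤ p n) (k : ℕ) : 0 ≤ blk p k := by
  unfold blk
  exact mul_nonneg (by positivity) (h _)

/-- The sum of `p` over one block. -/
lemma block_le (p : ℕ → ℝ) (anti : ∀ m n, 1 ≤ m → m ≤ n → p n ≤ p m) (k : ℕ) :
    ∑ n ∈ Finset.Ioc (2 ^ (k + 1)) (2 ^ (k + 2)), p n ≤ 2 * blk p k := by
  have hcard : (Finset.Ioc (2 ^ (k + 1)) (2 ^ (k + 2))).card = 2 ^ (k + 1) := by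
    rw [Nat.card_Ioc, pow_succ 2 (k + 1)]
    omega
  calc ∑ n ∈ Finset.Ioc (2 ^ (k + 1)) (2 ^ (k + 2)), p n
      ≤ ∑ _n ∈ Finset.Ioc (2 ^ (k + 1)) (2 ^ (k + 2)), p (2 ^ (k + 1)) := by
        refine Finset.sum_le_sum fun n hn => ?_
        rw [Finset.mem_Ioc] at hn
        exact anti _ _ Nat.one_le_two_pow hn.1.le
    _ = 2 * blk p k := by
        rw [Finset.sum_const, hcard, nsmul_eq_mul]
        unfold blk
        push_cast
        rw [pow_succ]
        ring

/-- The window is the union of its blocks. -/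
lemma window_sum (f : ℕ → ℝ) (a b : ℕ) (hab : a ≤ b) :
    ∑ n ∈ Finset.Ioc (2 ^ (a + 1)) (2 ^ (b + 1)), f n =
      ∑ k ∈ Finset.Ico a b, ∑ n ∈ Finset.Ioc (2 ^ (k + 1)) (2 ^ (k + 2)), f n := by
  induction b, hab using Nat.le_induction with
  | base => simp
  | succ b hab ih =>
    rw [Finset.sum_Ico_succ_top hab, ← ih,
      Finset.sum_Ioc_consecutive f (Nat.pow_le_pow_right (by norm_num) (by omega))
        (Nat.pow_le_pow_right (by norm_num) (by omega))]

/-- The mean number of elements of the window. -/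
lemma mean_le (p : ℕ → ℝ) (h0 : ∀ n, 0 ≤ p n) (anti : ∀ m n, 1 ≤ m → m ≤ n → p n ≤ p m)
    (L K : ℕ) (hL : K + 1 ≤ L) : ∑ n ∈ W L K, p n ≤ 2 * A (blk p) L (K + 1) := by
  obtain ⟨l, rfl⟩ : ∃ l, L = l + K + 1 := ⟨L - K - 1, by omega⟩
  unfold W A
  rw [show l + K + 1 - K = l + 1 by omega, show l + K + 1 - (K + 1) = l by omega,
    window_sum p l (l + K) (by omega), Finset.mul_sum]
  refine (Finset.sum_le_sum fun k _ => block_le p anti k).trans ?_
  refine Finset.sum_le_sum_of_subset_of_nonneg (Finset.Ico_subset_Ico_right (by omega)) ?_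
  intro k _ _
  exact mul_nonneg (by norm_num) (blk_nonneg h0 k)

lemma one_sub_ge {x : ℝ} (h0 : 0 ≤ x) (h1 : x ≤ 1 / 2) : Real.exp (-(2 * x)) ≤ 1 - x := by
  have h2 : Real.exp (-(2 * x)) * Real.exp (2 * x) = 1 := by
    rw [← Real.exp_add]; simp
  have h3 : 1 + 2 * x ≤ Real.exp (2 * x) := by
    have := Real.add_one_le_exp (2 * x); linarith
  have h4 := Real.exp_pos (-(2 * x))
  have h5 : (1 : ℝ) ≤ (1 - x) * (1 + 2 * x) := by nlinarith
  have h6 : Real.exp (-(2 * x)) * (1 + 2 * x) ≤ 1 :=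
    (mul_le_mul_of_nonneg_left h3 h4.le).trans h2.le
  have h7 : 0 < 1 + 2 * x := by linarith
  exact le_of_mul_le_mul_right (h6.trans h5) h7

/-- If `p` does not become small, the windows of length one are heavy. -/
lemma dense_of_large {p : ℕ → ℝ} (h : ∀ n, 1 ≤ n → 1 / 2 ≤ p n) : Dense (blk p) := by
  refine ⟨1, ?_⟩
  have h1 : ∀ L : ℕ, (L : ℝ) / 4 - 1 ≤ A (blk p) L 1 := by
    intro L
    rcases Nat.eq_zero_or_pos L with hL | hL
    · subst hL; unfold A; simp
    · obtain ⟨l, rfl⟩ : ∃ l, L = l + 1 := ⟨L - 1, by omega⟩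
      have e : A (blk p) (l + 1) 1 = blk p l := by
        unfold A
        rw [Nat.add_sub_cancel]
        simp
      rw [e]
      unfold blk
      have h2 := h (2 ^ (l + 1)) Nat.one_le_two_pow
      have h3 : ((l : ℝ) + 1) ≤ 2 ^ l := by
        have := Nat.lt_two_pow_self (n := l)
        exact_mod_cast this
      have h4 : (0 : ℝ) < 2 ^ l := by positivity
      push_cast
      nlinarith
  have h2 : Summable fun L : ℕ => Real.exp 1 * Real.exp ((L : ℝ) * (-(1 / 4))) :=
    (Real.summable_exp_nat_mul_iff.2 (by norm_num)).mul_left _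
  refine Summable.of_nonneg_of_le (fun L => (Real.exp_pos _).le) (fun L => ?_) h2
  rw [← Real.exp_add]
  refine Real.exp_le_exp.2 ?_
  have := h1 L
  linarith

section
variable {Ω : Type} [MeasurableSpace Ω] {μ : Measure Ω} {p : ℕ → ℝ} {B : Ω → Set ℕ}

/-- The probability that `B` avoids a finite set. -/
lemma avoid (h : Rnd μ p B) (F : Finset ℕ) :
    μ (⋂ n ∈ F, {ω | n ∉ B ω}) = ∏ n ∈ F, μ {ω | n ∉ B ω} := by
  have h1 := (iIndepSet_iff_iIndep _ _).1 h.indep
  refine h1.meas_biInter fun n _ => ?_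
  have h2 : MeasurableSet[MeasurableSpace.generateFrom {{ω | n ∈ B ω}}] {ω | n ∈ B ω} :=
    MeasurableSpace.measurableSet_generateFrom (Set.mem_singleton _)
  exact h2.compl

lemma prob_compl (h : Rnd μ p B) {n : ℕ} (hn : 1 ≤ n) (hp : p n ≤ 1 / 2) :
    ENNReal.ofReal (Real.exp (-(2 * p n))) ≤ μ {ω | n ∉ B ω} := by
  have := h.prob
  have e : {ω | n ∉ B ω} = {ω | n ∈ B ω}ᶜ := rfl
  rw [e, prob_compl_eq_one_sub (h.meas n), h.mass n hn, ← ENNReal.ofReal_one,
    ← ENNReal.ofReal_sub _ (h.nonneg n)]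
  exact ENNReal.ofReal_le_ofReal (one_sub_ge (h.nonneg n) hp)

/-- The gap event. -/
def Gap (B : Ω → Set ℕ) (L K : ℕ) : Set Ω := ⋂ n ∈ W L K, {ω | n ∉ B ω}

lemma gap_meas (h : Rnd μ p B) (L K : ℕ) : MeasurableSet (Gap B L K) :=
  Finset.measurableSet_biInter _ fun n _ => (h.meas n).compl

lemma gap_prob (h : Rnd μ p B) {L K : ℕ} (hL : K + 1 ≤ L)
    (hp : ∀ n ∈ W L K, p n ≤ 1 / 2) :
    ENNReal.ofReal (Real.exp (-(1 * (4 : ℕ) * A (blk p) L (K + 1)))) ≤ μ (Gap B L K) := by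
  unfold Gap
  rw [avoid h]
  have h1 : ∀ n ∈ W L K, 1 ≤ n := by
    intro n hn
    unfold W at hn
    rw [Finset.mem_Ioc] at hn
    exact (Nat.zero_le _).trans_lt hn.1
  calc ENNReal.ofReal (Real.exp (-(1 * (4 : ℕ) * A (blk p) L (K + 1))))
      ≤ ENNReal.ofReal (∏ n ∈ W L K, Real.exp (-(2 * p n))) := by
        refine ENNReal.ofReal_le_ofReal ?_
        rw [← Real.exp_sum]
        refine Real.exp_le_exp.2 ?_
        have := mean_le p h.nonneg h.anti L K hL
        rw [Finset.sum_neg_distrib, ← Finset.mul_sum]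
        push_cast
        linarith
    _ = ∏ n ∈ W L K, ENNReal.ofReal (Real.exp (-(2 * p n))) :=
        ENNReal.ofReal_prod_of_nonneg fun n _ => (Real.exp_pos _).le
    _ ≤ ∏ n ∈ W L K, μ {ω | n ∉ B ω} :=
        Finset.prod_le_prod' fun n hn => prob_compl h (h1 n hn) (hp n hn)

lemma gap_indep (h : Rnd μ p B) (r K : ℕ) :
    iIndepSet (fun j : ℕ => Gap B (r + K * (j + 1)) K) μ := by
  rw [iIndepSet_iff_meas_biInter fun j => gap_meas h _ _]
  intro s
  have hdisj : (s : Set ℕ).PairwiseDisjoint fun j => W (r + K * (j + 1)) K := by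
    have key : ∀ i j : ℕ, i < j →
        Disjoint (W (r + K * (i + 1)) K) (W (r + K * (j + 1)) K) := by
      intro i j hij
      rw [Finset.disjoint_left]
      intro n hi hj
      unfold W at hi hj
      rw [Finset.mem_Ioc] at hi hj
      have h1 : r + K * (i + 1) ≤ r + K * (j + 1) - K := by
        have : K * (i + 1) ≤ K * j := Nat.mul_le_mul_left K hij
        rw [Nat.mul_succ K j]
        omega
      have h2 : 2 ^ (r + K * (i + 1)) ≤ 2 ^ (r + K * (j + 1) - K) :=
        Nat.pow_le_pow_right (by norm_num) h1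
      omega
    intro i _ j _ hij
    rcases lt_or_gt_of_ne hij with h1 | h1
    · exact key i j h1
    · exact (key j i h1).symm
  have e : (⋂ j ∈ s, Gap B (r + K * (j + 1)) K) =
      ⋂ n ∈ s.biUnion fun j => W (r + K * (j + 1)) K, {ω | n ∉ B ω} := by
    ext ω
    simp only [Gap, Set.mem_iInter, Finset.mem_biUnion]
    constructor
    · rintro h1 n ⟨j, hj, hn⟩
      exact h1 j hj n hn
    · intro h1 j hj n hn
      exact h1 n ⟨j, hj, hn⟩
  rw [e, avoid h, Finset.prod_biUnion hdisj]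
  refine Finset.prod_congr rfl fun j _ => ?_
  unfold Gap
  rw [avoid h]

end

theorem specGaps (hH : SpecHolder) : SpecGaps := by
  intro Ω _ μ p B h hD K
  rcases Nat.eq_zero_or_pos K with hK | hK
  · subst hK
    refine Filter.Eventually.of_forall fun ω L₀ => ⟨L₀, le_rfl, Nat.zero_le _, ?_⟩
    rintro n _ ⟨h1, h2⟩
    rw [Nat.sub_zero] at h1
    omega
  have hb := blk_nonneg h.nonneg
  -- `p` is small from some point on
  obtain ⟨n₀, hn₀1, hn₀⟩ : ∃ n, 1 ≤ n ∧ p n < 1 / 2 := by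
    by_contra hc
    push Not at hc
    exact hD (dense_of_large hc)
  have hsmall : ∀ n, n₀ ≤ n → p n ≤ 1 / 2 := fun n hn => (h.anti n₀ n hn₀1 hn).trans hn₀.le
  -- some residue has an infinite sum
  obtain ⟨r, hr⟩ : ∃ r, (∑' j : ℕ, μ (Gap B (r + K * (j + 1)) K)) = ⊤ := by
    by_contra hc
    push Not at hc
    have hfin : ∀ r, Summable fun j : ℕ =>
        Real.exp (-(1 * (4 : ℕ) * A (blk p) (r + K * (j + 1)) (K + 1))) := by
      intro r
      have h1 := ENNReal.summable_toReal (hc r)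
      rw [← summable_nat_add_iff (n₀ + 1)] at h1 ⊢
      refine Summable.of_nonneg_of_le (fun j => (Real.exp_pos _).le) (fun j => ?_) h1
      have hprob := h.prob
      have hbig : K + n₀ + 1 ≤ r + K * (j + (n₀ + 1) + 1) := by
        have h3 : K * (j + (n₀ + 1) + 1) = K * (j + (n₀ + 1)) + K := Nat.mul_succ _ _
        have h4 : j + (n₀ + 1) ≤ K * (j + (n₀ + 1)) := Nat.le_mul_of_pos_left _ hK
        omega
      have h2 := gap_prob h (L := r + K * (j + (n₀ + 1) + 1)) (K := K) (by omega) (by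
        intro n hn
        refine hsmall n ?_
        unfold W at hn
        rw [Finset.mem_Ioc] at hn
        have h5 : n₀ ≤ r + K * (j + (n₀ + 1) + 1) - K := by omega
        have h6 := Nat.lt_two_pow_self (n := r + K * (j + (n₀ + 1) + 1) - K)
        omega)
      rw [ENNReal.ofReal_le_iff_le_toReal (measure_ne_top _ _)] at h2
      exact h2
    have hall : Summable fun L : ℕ => Real.exp (-(1 * (4 : ℕ) * A (blk p) L (K + 1))) := by
      rw [← summable_nat_add_iff K]
      have : NeZero K := ⟨hK.ne'⟩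
      rw [← (Nat.divModEquiv K).symm.summable_iff]
      refine (summable_prod_of_nonneg fun x => (Real.exp_pos _).le).2
        ⟨fun j => (hasSum_fintype _).summable, ?_⟩
      simp only [tsum_fintype]
      refine summable_sum fun r _ => ?_
      refine (hfin r).congr fun j => ?_
      simp only [Nat.divModEquiv_symm_apply]
      rw [show j * K + (r : ℕ) + K = (r : ℕ) + K * (j + 1) by ring]
    have h4 := hH (blk p) hb 4 (K + 1) 1 (by norm_num) one_pos hall
    refine hD ⟨4 * (K + 1), ?_⟩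
    simpa using h4
  have h1 := measure_limsup_eq_one (fun j => gap_meas h _ _) (gap_indep h r K) hr
  have hprob := h.prob
  have h2 : ∀ᵐ ω ∂μ, ω ∈ Filter.limsup (fun j : ℕ => Gap B (r + K * (j + 1)) K) Filter.atTop := by
    rw [← prob_compl_eq_zero_iff₀] at h1
    · exact h1
    · exact (MeasurableSet.measurableSet_limsup fun j => gap_meas h _ _).nullMeasurableSet
  filter_upwards [h2] with ω hω L₀
  rw [Filter.mem_limsup_iff_frequently_mem] at hω
  obtain ⟨j, hj, hjω⟩ := (Filter.frequently_atTop.1 hω) L₀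
  refine ⟨r + K * (j + 1), ?_, ?_, ?_⟩
  · have : j + 1 ≤ K * (j + 1) := Nat.le_mul_of_pos_left _ hK
    omega
  · have : K * 1 ≤ K * (j + 1) := Nat.mul_le_mul_left K (by omega)
    omega
  · intro n hn hn2
    have h3 : n ∉ B ω := by
      unfold Gap at hjω
      rw [Set.mem_iInter₂] at hjω
      exact hjω n (by unfold W; rw [Finset.mem_Ioc]; exact hn2)
    exact h3 hn

end Pool.Agent.Lib.MP_b75bf2_nt.RND.GapsM
end

section
/-!
# All frequencies (module `Grid` of `RND`)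

The window `W L t` of the random set is good for all frequencies outside an event of small
probability: the large deviation bound at one frequency, at the points of a grid of mesh
`1 / (m * 2 ^ L)`, and the trivial bound for the derivative in between.
-/
set_option autoImplicit false
open Classical MeasureTheory ProbabilityTheory
open scoped Pointwise

namespace Pool.Agent.Lib.MP_b75bf2_nt.RND

namespace GridM

theorem norm_e (x : ℝ) : ‖e x‖ = 1 := by
  unfold e
  rw [show (2 * Real.pi * Complex.I * x : ℂ) = ((2 * Real.pi * x : ℝ) : ℂ) * Complex.I by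
    push_cast; ring]
  exact Complex.norm_exp_ofReal_mul_I _

theorem e_sub_int (n : ℕ) (θ : ℝ) (j : ℤ) : e (n * (θ - j)) = e (n * θ) := by
  unfold e
  have h : (2 * Real.pi * Complex.I * ((n * (θ - j) : ℝ) : ℂ) : ℂ) =
      2 * Real.pi * Complex.I * ((n * θ : ℝ) : ℂ) - ((n * j : ℤ) : ℂ) * (2 * Real.pi * Complex.I) := by
    push_cast
    ring
  rw [h, Complex.exp_periodic.sub_int_mul_eq]

theorem e_sub_le (x y : ℝ) : ‖e x - e y‖ ≤ 2 * Real.pi * |x - y| := by
  have h1 : e x - e y = e y * (Complex.exp (Complex.I * ((2 * Real.pi * (x - y) : ℝ) : ℂ)) - 1) := by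
    unfold e
    rw [mul_sub, ← Complex.exp_add, mul_one]
    congr 2
    push_cast
    ring
  rw [h1, norm_mul, norm_e, one_mul]
  refine Real.norm_exp_I_mul_ofReal_sub_one_le.trans ?_
  rw [Real.norm_eq_abs, abs_mul, abs_of_pos Real.two_pi_pos]

theorem S_sub_int (p : ℕ → ℝ) (B : Set ℕ) (L t : ℕ) (θ : ℝ) (j : ℤ) :
    S p B L t (θ - j) = S p B L t θ := by
  unfold S
  refine Finset.sum_congr rfl fun n _ => ?_
  rw [e_sub_int]

theorem S_zero (p : ℕ → ℝ) (B : Set ℕ) (L t : ℕ) : S p B L t 0 = (Sm p B L t : ℂ) := by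
  unfold S Sm
  push_cast
  refine Finset.sum_congr rfl fun n _ => ?_
  unfold e
  simp

theorem S_sub_le (p : ℕ → ℝ) (hp : ∀ n, 0 ≤ p n) (B : Set ℕ) (L t : ℕ) (θ θ' : ℝ) :
    ‖S p B L t θ - S p B L t θ'‖ ≤ 2 * Real.pi * 2 ^ L * |θ - θ'| * Sm p B L t := by
  unfold S Sm
  rw [← Finset.sum_sub_distrib, Finset.mul_sum]
  refine (norm_sum_le _ _).trans (Finset.sum_le_sum fun n hn => ?_)
  have hw : 0 ≤ wt p n := div_nonneg (hp _) (hp _)
  have hn2 : (n : ℝ) ≤ 2 ^ L := by
    have := (Finset.mem_Ioc.1 (Finset.mem_filter.1 hn).1).2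
    exact_mod_cast this
  rw [← mul_sub, norm_mul, Complex.norm_real, Real.norm_eq_abs, abs_of_nonneg hw, mul_comm]
  refine mul_le_mul_of_nonneg_right ?_ hw
  refine (e_sub_le _ _).trans ?_
  rw [← mul_sub, abs_mul, abs_of_nonneg (Nat.cast_nonneg n), mul_assoc (2 * Real.pi)]
  gcongr

/-- The deterministic part: if the exponential sums are close to their means at all points of the
grid, then the window is good. -/
theorem good (hE : SpecExp) (p : ℕ → ℝ) (hp : ∀ n, 0 ≤ p n) (B : Set ℕ) (L t t' m C : ℕ) (ε : ℝ)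
    (htL : t ≤ L) (hε : 0 < ε) (hε1 : ε ≤ 1) (hm : 16 ≤ ε * m) (hC : 8 ≤ ε * 2 ^ C)
    (K : ℕ) (hK : m * 2 ^ (t' + (C + 1)) + 1 ≤ K)
    (hgrid : ∀ k : ℤ, |k| ≤ K → ‖S p B L t (k / (m * 2 ^ L)) -
      ∑ n ∈ W L t, (q p n : ℂ) * e (n * (k / (m * 2 ^ L)))‖ ≤ ε / 16 * A (blk p) L t) :
    GoodW p B L t t' ε (C + 1) := by
  have hm0 : (0 : ℝ) < m := by
    rcases Nat.eq_zero_or_pos m with h | h
    · rw [h] at hm
      norm_num at hm
    · exact_mod_cast h
  have hL0 : (0 : ℝ) < 2 ^ L := by positivity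
  have hA0 : 0 ≤ A (blk p) L t := by
    unfold A
    exact Finset.sum_nonneg fun k _ => mul_nonneg (by positivity) (hp _)
  obtain ⟨hE1, hE2⟩ := hE p hp L t htL
  have hS0 : |Sm p B L t - A (blk p) L t| ≤ ε / 16 * A (blk p) L t := by
    have h := hgrid 0 (by simp)
    simp only [Int.cast_zero, zero_div] at h
    rw [S_zero] at h
    have h2 : (∑ n ∈ W L t, (q p n : ℂ) * e (n * 0)) = ((A (blk p) L t : ℝ) : ℂ) := by
      rw [← hE1]
      push_cast
      refine Finset.sum_congr rfl fun n _ => ?_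
      unfold e
      simp
    rw [h2, ← Complex.ofReal_sub, Complex.norm_real, Real.norm_eq_abs] at h
    exact h
  have hSm : A (blk p) L t ≤ 2 * Sm p B L t := by
    have h1 := (abs_le.1 hS0).1
    nlinarith
  refine ⟨hSm, fun θ hθ hθ' => ?_⟩
  obtain ⟨j, hj⟩ := hθ'
  set x : ℝ := θ - j with hx
  set k : ℤ := round (x * (m * 2 ^ L)) with hk
  have hround : |x * (m * 2 ^ L) - k| ≤ 1 / 2 := abs_sub_round _
  have hclose : |x - k / (m * 2 ^ L)| ≤ 1 / (2 * m * 2 ^ L) := by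
    have h1 : x - k / (m * 2 ^ L) = (x * (m * 2 ^ L) - k) / (m * 2 ^ L) := by
      field_simp
    rw [h1, abs_div, abs_of_pos (by positivity : (0 : ℝ) < m * 2 ^ L), div_le_div_iff₀ (by positivity)
      (by positivity)]
    nlinarith [mul_pos hm0 hL0]
  have hkK : |k| ≤ K := by
    have h1 : |x * (m * 2 ^ L)| ≤ m * 2 ^ (t' + (C + 1)) := by
      rw [abs_mul, abs_of_pos (by positivity : (0 : ℝ) < m * 2 ^ L)]
      calc |x| * (m * 2 ^ L) ≤ 2 ^ (t' + (C + 1)) / 2 ^ L * (m * 2 ^ L) := by gcongr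
        _ = m * 2 ^ (t' + (C + 1)) := by field_simp
    have h2 : |(k : ℝ)| ≤ m * 2 ^ (t' + (C + 1)) + 1 := by
      have h3 : |(k : ℝ)| ≤ |x * (m * 2 ^ L)| + |x * (m * 2 ^ L) - k| := by
        have := abs_sub_abs_le_abs_sub (k : ℝ) (x * (m * 2 ^ L))
        rw [abs_sub_comm] at this
        linarith
      linarith
    have h4 : ((|k| : ℤ) : ℝ) ≤ ((m * 2 ^ (t' + (C + 1)) + 1 : ℕ) : ℝ) := by
      push_cast
      exact h2
    have h5 : |k| ≤ ((m * 2 ^ (t' + (C + 1)) + 1 : ℕ) : ℤ) := by exact_mod_cast h4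
    exact h5.trans (by exact_mod_cast hK)
  have hfar : ∀ i : ℤ, (2 : ℝ) ^ (t + C) / 2 ^ L ≤ |(k : ℝ) / (m * 2 ^ L) - i| := by
    intro i
    have h1 := hθ (j + i)
    have h2 : |θ - ((j + i : ℤ) : ℝ)| ≤ |(k : ℝ) / (m * 2 ^ L) - i| + |x - k / (m * 2 ^ L)| := by
      have : θ - ((j + i : ℤ) : ℝ) = ((k : ℝ) / (m * 2 ^ L) - i) + (x - k / (m * 2 ^ L)) := by
        rw [hx]
        push_cast
        ring
      rw [this]
      exact abs_add_le _ _
    have h3 : 1 / (2 * m * 2 ^ L) ≤ (1 : ℝ) / 2 ^ L := by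
      have hm1 : (1 : ℝ) ≤ m := by
        have : (0 : ℕ) < m := by exact_mod_cast hm0
        exact_mod_cast this
      refine one_div_le_one_div_of_le hL0 ?_
      nlinarith
    have h4 : (2 : ℝ) ^ (t + (C + 1)) / 2 ^ L = 2 ^ (t + C) / 2 ^ L + 2 ^ (t + C) / 2 ^ L := by
      rw [← add_assoc, pow_succ]
      ring
    have h5 : (1 : ℝ) / 2 ^ L ≤ 2 ^ (t + C) / 2 ^ L := by
      gcongr
      exact one_le_pow₀ (by norm_num)
    linarith
  have hexp := hE2 C ((k : ℝ) / (m * 2 ^ L)) hfar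
  have hg := hgrid k hkK
  have hSm0 : 0 ≤ Sm p B L t := by linarith
  have hd : ‖S p B L t x - S p B L t (k / (m * 2 ^ L))‖ ≤ ε / 4 * Sm p B L t := by
    refine (S_sub_le p hp B L t _ _).trans ?_
    refine mul_le_mul_of_nonneg_right ?_ hSm0
    calc 2 * Real.pi * 2 ^ L * |x - k / (m * 2 ^ L)| ≤ 2 * Real.pi * 2 ^ L * (1 / (2 * m * 2 ^ L)) := by
          gcongr
      _ = Real.pi / m := by field_simp
      _ ≤ ε / 4 := by
          rw [div_le_div_iff₀ hm0 (by norm_num)]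
          have := Real.pi_le_four
          nlinarith
  have hmean : ‖∑ n ∈ W L t, (q p n : ℂ) * e (n * (k / (m * 2 ^ L)))‖ ≤ ε / 8 * A (blk p) L t := by
    set Z := ‖∑ n ∈ W L t, (q p n : ℂ) * e (n * (k / (m * 2 ^ L)))‖ with hZ
    have hZ0 : 0 ≤ Z := norm_nonneg _
    have h1 : Z * 8 ≤ ε * A (blk p) L t := by
      calc Z * 8 ≤ Z * (ε * 2 ^ C) := by gcongr
        _ = ε * (Z * 2 ^ C) := by ring
        _ ≤ ε * A (blk p) L t := by gcongr
    linarith
  rw [← S_sub_int p B L t θ j, ← hx]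
  calc ‖S p B L t x‖ = ‖(S p B L t x - S p B L t (k / (m * 2 ^ L))) +
        (S p B L t (k / (m * 2 ^ L)) - ∑ n ∈ W L t, (q p n : ℂ) * e (n * (k / (m * 2 ^ L)))) +
        ∑ n ∈ W L t, (q p n : ℂ) * e (n * (k / (m * 2 ^ L)))‖ := by
        congr 1
        ring
    _ ≤ ‖S p B L t x - S p B L t (k / (m * 2 ^ L))‖ +
        ‖S p B L t (k / (m * 2 ^ L)) - ∑ n ∈ W L t, (q p n : ℂ) * e (n * (k / (m * 2 ^ L)))‖ +
        ‖∑ n ∈ W L t, (q p n : ℂ) * e (n * (k / (m * 2 ^ L)))‖ := norm_add₃_le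
    _ ≤ ε / 4 * Sm p B L t + ε / 16 * A (blk p) L t + ε / 8 * A (blk p) L t := by
        gcongr
    _ ≤ ε * Sm p B L t := by nlinarith

end GridM

open GridM in
/-- (P3) All frequencies. -/
theorem GridM.specGrid (hE : SpecExp) (hD : SpecDev) : SpecGrid := by
  intro ε hε hε1
  obtain ⟨m, hm⟩ := exists_nat_ge (16 / ε)
  obtain ⟨C, hC⟩ := pow_unbounded_of_one_lt (8 / ε) (one_lt_two : (1 : ℝ) < 2)
  have hm' : 16 ≤ ε * m := by
    rw [div_le_iff₀ hε] at hm
    linarith
  have hC' : 8 ≤ ε * 2 ^ C := by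
    rw [div_lt_iff₀ hε] at hC
    linarith
  refine ⟨C + 1, ε ^ 2 / 4096, 4 * (2 * (m * 2 ^ (C + 1) + 1) + 1), by positivity, by positivity, ?_⟩
  intro Ω _ μ p B h L t t' htL
  set K : ℕ := m * 2 ^ (t' + (C + 1)) + 1 with hKdef
  set bad : ℤ → Set Ω := fun k => {ω | ε / 16 * A (blk p) L t <
    ‖S p (B ω) L t (k / (m * 2 ^ L)) - ∑ n ∈ W L t, (q p n : ℂ) * e (n * (k / (m * 2 ^ L)))‖} with hbad
  have hsub : {ω | ¬ GoodW p (B ω) L t t' ε (C + 1)} ⊆ ⋃ k ∈ Finset.Icc (-(K : ℤ)) K, bad k := by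
    intro ω hω
    by_contra hcon
    apply hω
    refine good hE p h.nonneg (B ω) L t t' m C ε htL hε hε1 hm' hC' K le_rfl fun k hk => ?_
    by_contra hlt
    apply hcon
    simp only [Set.mem_iUnion]
    refine ⟨k, Finset.mem_Icc.2 (abs_le.1 hk), ?_⟩
    exact not_le.1 hlt
  have hone : ∀ k : ℤ, μ (bad k) ≤ ENNReal.ofReal (4 * Real.exp (-(ε ^ 2 / 4096 * A (blk p) L t))) := by
    intro k
    have h1 := hD (fun p hp L t ht => (hE p hp L t ht).1) Ω μ p B h L t (k / (m * 2 ^ L)) (ε / 16) htL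
      (by positivity) (by linarith)
    refine h1.trans (le_of_eq ?_)
    congr 3
    ring
  have hcard : (Finset.Icc (-(K : ℤ)) K).card = 2 * K + 1 := by
    rw [Int.card_Icc]
    omega
  calc μ {ω | ¬ GoodW p (B ω) L t t' ε (C + 1)} ≤ μ (⋃ k ∈ Finset.Icc (-(K : ℤ)) K, bad k) :=
        measure_mono hsub
    _ ≤ ∑ k ∈ Finset.Icc (-(K : ℤ)) K, μ (bad k) := measure_biUnion_finset_le _ _
    _ ≤ ∑ k ∈ Finset.Icc (-(K : ℤ)) K,
        ENNReal.ofReal (4 * Real.exp (-(ε ^ 2 / 4096 * A (blk p) L t))) :=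
        Finset.sum_le_sum fun k _ => hone k
    _ = ENNReal.ofReal ((2 * K + 1 : ℕ) * (4 * Real.exp (-(ε ^ 2 / 4096 * A (blk p) L t)))) := by
        rw [Finset.sum_const, hcard, nsmul_eq_mul,
          ENNReal.ofReal_mul (p := ((2 * K + 1 : ℕ) : ℝ)) (Nat.cast_nonneg _), ENNReal.ofReal_natCast]
    _ ≤ ENNReal.ofReal (4 * (2 * (m * 2 ^ (C + 1) + 1) + 1) * 2 ^ t' *
        Real.exp (-(ε ^ 2 / 4096 * A (blk p) L t))) := by
        apply ENNReal.ofReal_le_ofReal
        have h1 : ((2 * K + 1 : ℕ) : ℝ) ≤ (2 * (m * 2 ^ (C + 1) + 1) + 1) * 2 ^ t' := by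
          have h2 : (1 : ℝ) ≤ 2 ^ t' := one_le_pow₀ (by norm_num)
          rw [hKdef]
          push_cast
          rw [pow_add 2 t' (C + 1)]
          nlinarith
        calc ((2 * K + 1 : ℕ) : ℝ) * (4 * Real.exp (-(ε ^ 2 / 4096 * A (blk p) L t)))
            ≤ ((2 * (m * 2 ^ (C + 1) + 1) + 1) * 2 ^ t') *
              (4 * Real.exp (-(ε ^ 2 / 4096 * A (blk p) L t))) := by gcongr
          _ = _ := by ring

end Pool.Agent.Lib.MP_b75bf2_nt.RND
end

section
/-!
# (D1) Linear growth of the masses of windows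

Without arbitrarily long and sparse chains of windows, `A a L t` grows faster than linearly in `t`,
uniformly in `L`.
-/
set_option autoImplicit false

namespace Pool.Agent.Lib.MP_b75bf2_nt.RND.GrowthM

/-- The mass of a window is monotone in its length. -/
theorem A_mono (a : ℕ → ℝ) (ha : ∀ k, 0 ≤ a k) (L s t : ℕ) (h : s ≤ t) : A a L s ≤ A a L t := by
  unfold A
  apply Finset.sum_le_sum_of_subset_of_nonneg
  · intro k hk
    simp only [Finset.mem_Ico] at hk ⊢
    omega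
  · intro k _ _
    exact ha k

/-- The mass of a window is nonnegative. -/
theorem A_nonneg (a : ℕ → ℝ) (ha : ∀ k, 0 ≤ a k) (L t : ℕ) : 0 ≤ A a L t :=
  Finset.sum_nonneg fun k _ => ha k

/-- Greedy covering from the top: if every window top `L'` in `(L - h, L]` has a window of length
in `[1, h]` of mass at least `c` times its length, then some interval `[m, L')` ending in `L'` and
starting in `[L - t, L - h]` has mass at least `c` times its length. -/
theorem greedy (a : ℕ → ℝ) (c : ℝ) (L t h : ℕ) (hh : 2 * h ≤ t) (htL : t ≤ L)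
    (H : ∀ L' : ℕ, L - h < L' → L' ≤ L → ∃ s : ℕ, 1 ≤ s ∧ s ≤ h ∧ c * s ≤ A a L' s) :
    ∀ d : ℕ, d ≤ h → ∃ m : ℕ, L - t ≤ m ∧ m ≤ L - h ∧
      c * ((L - h + d : ℕ) - (m : ℝ)) ≤ ∑ k ∈ Finset.Ico m (L - h + d), a k := by
  intro d
  induction d using Nat.strong_induction_on with
  | _ d ih =>
    intro hd
    rcases Nat.eq_zero_or_pos d with h0 | h0
    · subst h0
      refine ⟨L - h, by omega, le_refl _, ?_⟩
      simp
    · obtain ⟨s, hs1, hsh, hs⟩ := H (L - h + d) (by omega) (by omega)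
      unfold A at hs
      by_cases hsd : s ≤ d
      · obtain ⟨m, hm1, hm2, hm3⟩ := ih (d - s) (by omega) (by omega)
        refine ⟨m, hm1, hm2, ?_⟩
        have e1 : L - h + d - s = L - h + (d - s) := by omega
        rw [e1] at hs
        have e2 : ∑ k ∈ Finset.Ico m (L - h + (d - s)), a k +
            ∑ k ∈ Finset.Ico (L - h + (d - s)) (L - h + d), a k =
            ∑ k ∈ Finset.Ico m (L - h + d), a k :=
          Finset.sum_Ico_consecutive _ (by omega) (by omega)
        rw [← e2]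
        have e3 : ((L - h + d : ℕ) : ℝ) = ((L - h + (d - s) : ℕ) : ℝ) + s := by
          rw [← Nat.cast_add]
          congr 1
          omega
        rw [e3]
        nlinarith [hm3, hs]
      · refine ⟨L - h + d - s, by omega, by omega, ?_⟩
        have e3 : ((L - h + d : ℕ) : ℝ) = ((L - h + d - s : ℕ) : ℝ) + s := by
          rw [← Nat.cast_add]
          congr 1
          omega
        have e4 : ((L - h + d : ℕ) : ℝ) - ((L - h + d - s : ℕ) : ℝ) = s := by linarith
        rw [e4]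
        exact hs

/-- If a long window is light, some slightly lower top has only light windows. -/
theorem light_top (a : ℕ → ℝ) (ha : ∀ k, 0 ≤ a k) (D L t : ℕ) (ht : 2 ≤ t) (htL : t ≤ L)
    (hA : A a L t < (D : ℝ) * t) :
    ∃ L' : ℕ, L - t / 2 < L' ∧ L' ≤ L ∧ ∀ s : ℕ, 1 ≤ s → s ≤ t / 2 → A a L' s ≤ 4 * D * s := by
  by_contra hne
  push Not at hne
  have H : ∀ L' : ℕ, L - t / 2 < L' → L' ≤ L →
      ∃ s : ℕ, 1 ≤ s ∧ s ≤ t / 2 ∧ (4 * D : ℝ) * s ≤ A a L' s := by
    intro L' h1 h2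
    obtain ⟨s, h3, h4, h5⟩ := hne L' h1 h2
    exact ⟨s, h3, h4, h5.le⟩
  obtain ⟨m, hm1, hm2, hm3⟩ := greedy a (4 * D) L t (t / 2) (by omega) htL H (t / 2) (le_refl _)
  have e1 : L - t / 2 + t / 2 = L := by omega
  rw [e1] at hm3
  have h1 : ∑ k ∈ Finset.Ico m L, a k ≤ A a L t := by
    unfold A
    apply Finset.sum_le_sum_of_subset_of_nonneg
    · intro k hk
      simp only [Finset.mem_Ico] at hk ⊢
      omega
    · intro k _ _
      exact ha k
  have h2 : (t : ℝ) ≤ 4 * ((L : ℝ) - m) := by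
    have h3 : t + 4 * m ≤ 4 * L := by omega
    have h4 : ((t + 4 * m : ℕ) : ℝ) ≤ ((4 * L : ℕ) : ℝ) := by exact_mod_cast h3
    push_cast at h4
    linarith
  have h5 : (D : ℝ) * t ≤ 4 * D * ((L : ℝ) - m) := by
    have h6 : (0 : ℝ) ≤ D := Nat.cast_nonneg D
    calc (D : ℝ) * t ≤ D * (4 * ((L : ℝ) - m)) := mul_le_mul_of_nonneg_left h2 h6
      _ = 4 * D * ((L : ℝ) - m) := by ring
  linarith

/-- The chain below a light top. -/
def tau (K R : ℕ) : ℕ → ℕ
  | 0 => K
  | i + 1 => R * (tau K R i + 1)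

/-- (D1) Linear growth. -/
theorem specGrowth : SpecGrowth := by
  intro a ha hcase D
  unfold CaseOne at hcase
  push Not at hcase
  obtain ⟨J, K, C, hJ⟩ := hcase
  set R : ℕ := C * (4 * D + 1) with hR
  refine ⟨2 * (∑ i ∈ Finset.range (J + 1), (tau K R i + 1)) + 4, ?_⟩
  intro L t hT htL
  by_contra hlt
  push Not at hlt
  obtain ⟨L', h1, h2, h3⟩ := light_top a ha D L t (by omega) htL hlt
  have hi : ∀ i ≤ J, tau K R i + 1 ≤ t / 2 := by
    intro i hiJ
    have h4 : tau K R i + 1 ≤ ∑ i ∈ Finset.range (J + 1), (tau K R i + 1) := by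
      apply Finset.single_le_sum (f := fun i => tau K R i + 1) (fun _ _ => Nat.zero_le _)
      exact Finset.mem_range.mpr (by omega)
    omega
  obtain ⟨i, hiJ, hi2⟩ := hJ L' (tau K R) (le_refl _) (by have := hi J (le_refl _); omega)
  have h5 := h3 (tau K R i + 1) (by omega) (hi i hiJ.le)
  have h6 : ((tau K R (i + 1) : ℕ) : ℝ) = C * (4 * D + 1) * (tau K R i + 1) := by
    have h7 : tau K R (i + 1) = R * (tau K R i + 1) := rfl
    rw [h7, hR]
    push_cast
    ring
  rw [h6] at hi2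
  have h8 : (0 : ℝ) ≤ C := Nat.cast_nonneg C
  have h9 : (C : ℝ) * (A a L' (tau K R i + 1) + tau K R i + 1) ≤
      C * ((4 * D + 1) * (tau K R i + 1)) := by
    apply mul_le_mul_of_nonneg_left _ h8
    push_cast at h5
    linarith
  linarith

end Pool.Agent.Lib.MP_b75bf2_nt.RND.GrowthM
end

section
/-!
# Summability for longer windows
-/
set_option autoImplicit false

namespace Pool.Agent.Lib.MP_b75bf2_nt.RND

namespace HolderM

/-- the window of length `r * K` consists of `r` windows of length `K` -/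
lemma A_split (a : ℕ → ℝ) (L K r : ℕ) :
    A a (L + r * K) (r * K) = ∑ j ∈ Finset.range r, A a (L + (j + 1) * K) K := by
  induction r with
  | zero => simp [A]
  | succ r ih =>
    rw [Finset.sum_range_succ, ← ih]
    unfold A
    have h1 : L + (r + 1) * K - (r + 1) * K = L := by omega
    have h2 : L + r * K - r * K = L := by omega
    have h3 : L + (r + 1) * K - K = L + r * K := by
      have : (r + 1) * K = r * K + K := by ring
      omega
    rw [h1, h2, h3]
    have h4 : L + r * K ≤ L + (r + 1) * K := by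
      have : (r + 1) * K = r * K + K := by ring
      omega
    exact (Finset.sum_Ico_consecutive a (Nat.le_add_right _ _) h4).symm

/-- the exponential of a sum -/
lemma exp_le (η : ℝ) (hη : 0 < η) (r : ℕ) (hr : 0 < r) (x : ℕ → ℝ) :
    Real.exp (-(η * ∑ j ∈ Finset.range r, x j)) ≤ ∑ j ∈ Finset.range r, Real.exp (-(η * r * x j)) := by
  obtain ⟨m, hm, hmin⟩ := (Finset.range r).exists_min_image x ⟨0, Finset.mem_range.2 hr⟩
  have h1 : (r : ℝ) * x m ≤ ∑ j ∈ Finset.range r, x j := by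
    have := Finset.card_nsmul_le_sum (Finset.range r) x (x m) hmin
    rwa [Finset.card_range, nsmul_eq_mul] at this
  have h2 : Real.exp (-(η * ∑ j ∈ Finset.range r, x j)) ≤ Real.exp (-(η * r * x m)) := by
    apply Real.exp_le_exp.2
    have := mul_le_mul_of_nonneg_left h1 hη.le
    rw [← mul_assoc] at this
    linarith
  exact h2.trans (Finset.single_le_sum (f := fun j => Real.exp (-(η * r * x j)))
    (fun j _ => (Real.exp_pos _).le) hm)

end HolderM

open HolderM in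
theorem HolderM.specHolder : SpecHolder := by
  intro a _ r K η hr hη hs
  rw [← summable_nat_add_iff (r * K)]
  have h1 : Summable (fun L : ℕ => ∑ j ∈ Finset.range r, Real.exp (-(η * r * A a (L + (j + 1) * K) K))) := by
    refine summable_sum fun j _ => ?_
    exact (summable_nat_add_iff (f := fun L : ℕ => Real.exp (-(η * r * A a L K))) ((j + 1) * K)).2 hs
  refine Summable.of_nonneg_of_le (fun L => (Real.exp_pos _).le) (fun L => ?_) h1
  rw [A_split]
  exact exp_le η hη r hr _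

end Pool.Agent.Lib.MP_b75bf2_nt.RND
end

section
/-!
# The product measure
-/
set_option autoImplicit false
open Classical MeasureTheory ProbabilityTheory
open scoped Pointwise

namespace Pool.Agent.Lib.MP_b75bf2_nt.RND.InstM

/-- The condition on one coordinate. -/
def T (n : ℕ) : Set Bool := {b | n = 0 ∨ b = true}

lemma measT (n : ℕ) : MeasurableSet (T n) := (Set.toFinite _).measurableSet

/-- The product measure of a box over a finite set. -/
lemma box (P : ℕ → Measure Bool) [∀ n, IsProbabilityMeasure (P n)] (s : Finset ℕ) :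
    Measure.infinitePi P (⋂ i ∈ s, {ω : ℕ → Bool | ω i ∈ T i}) = ∏ i ∈ s, P i (T i) := by
  have h : (⋂ i ∈ s, {ω : ℕ → Bool | ω i ∈ T i}) = Set.pi (s : Set ℕ) T := by
    ext ω
    simp [Set.mem_pi]
  rw [h, Measure.infinitePi_pi]
  intro i _
  exact measT i

lemma one (P : ℕ → Measure Bool) [∀ n, IsProbabilityMeasure (P n)] (i : ℕ) :
    Measure.infinitePi P {ω : ℕ → Bool | ω i ∈ T i} = P i (T i) := by
  have h := box P {i}
  simpa using h

theorem specInst : SpecInst := by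
  intro p hanti
  have hev : ∀ n : ℕ, {ω : ℕ → Bool | n ∈ {n : ℕ | n = 0 ∨ ω n = true}} =
      {ω : ℕ → Bool | ω n ∈ T n} := fun n => rfl
  have hmeas : ∀ n : ℕ, MeasurableSet {ω : ℕ → Bool | ω n ∈ T n} := fun n =>
    measurable_pi_apply n (measT n)
  refine ⟨inferInstance, fun n => (p n).2.1, ?_, ?_, ?_, ?_, ?_⟩
  · intro m n hm hmn
    exact hanti m n hm hmn
  · intro ω
    exact Or.inl rfl
  · intro n
    exact hmeas n
  · intro n hn
    rw [hev n, one]
    have h0 : n ≠ 0 := by omega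
    have h1 : true ∈ T n := Or.inr rfl
    have h2 : false ∉ T n := by
      intro h
      rcases h with h | h
      · exact h0 h
      · exact absurd h (by decide)
    rw [bernoulliMeasure_apply_of_mem_of_notMem (p n) (measT n) h1 h2]
    rw [ENNReal.ofReal]
    congr 1
    ext
    simp [Real.coe_toNNReal _ (p n).2.1]
  · show iIndepSet (fun n : ℕ => {ω : ℕ → Bool | ω n ∈ T n}) _
    rw [iIndepSet_iff_meas_biInter hmeas]
    intro s
    rw [box]
    exact Finset.prod_congr rfl fun i _ =>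
      (one (fun n => bernoulliMeasure true false (p n)) i).symm

end Pool.Agent.Lib.MP_b75bf2_nt.RND.InstM
end

section
/-!
# Random sets (G1): short lists give phases (Dirichlet)
-/
set_option autoImplicit false
open Classical

namespace Pool.Agent.Lib.MP_b75bf2_nt.RND.ListsM

/-- the number of elements up to `2 ^ L` -/
lemma cnt_le_window (B : Set ℕ) (L t : ℕ) :
    cnt B (2 ^ L) ≤ 2 ^ (L - t) + ((W L t).filter (fun n => n ∈ B)).card := by
  unfold cnt
  have h : (Finset.Ioc 0 (2 ^ L)).filter (fun a => a ∈ B) ⊆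
      Finset.Ioc 0 (2 ^ (L - t)) ∪ (W L t).filter (fun n => n ∈ B) := by
    intro a ha
    rw [Finset.mem_filter, Finset.mem_Ioc] at ha
    rw [Finset.mem_union, Finset.mem_Ioc, Finset.mem_filter]
    unfold W
    rw [Finset.mem_Ioc]
    rcases le_or_gt a (2 ^ (L - t)) with h | h
    · exact Or.inl ⟨ha.1.1, h⟩
    · exact Or.inr ⟨⟨h, ha.1.2⟩, ha.2⟩
  refine (Finset.card_le_card h).trans ((Finset.card_union_le _ _).trans ?_)
  rw [Nat.card_Ioc, Nat.sub_zero]

/-- **(G1)** -/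
theorem specLists : SpecLists := by
  intro m q
  refine ⟨q + 1, 2 * q + 1, fun B L t hK hL hch => ?_⟩
  have hstep : ∀ i < m, t i + 2 * q + q * ((W L (t i)).filter (fun n => n ∈ B)).card ≤
      t (i + 1) := by
    intro i hi
    have := hch i hi
    nlinarith
  have hmono : ∀ i j, i ≤ j → j ≤ m → t i ≤ t j := by
    intro i j hij
    induction j, hij using Nat.le_induction with
    | base => intro _; exact le_rfl
    | succ j hj ih =>
      intro hjm
      have h1 := ih (by omega)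
      have h2 := hstep j (by omega)
      omega
  have hth : ∀ i : ℕ, ∃ k : ℕ, 1 ≤ k ∧
      k ≤ 2 ^ (q * ((W L (t i)).filter (fun n => n ∈ B)).card) ∧
      ∀ b : ℕ, b ∈ B → b ∈ W L (t i) →
        |(k : ℝ) * ((2 : ℝ) ^ (t i + q) / 2 ^ L * b) -
          round ((k : ℝ) * ((2 : ℝ) ^ (t i + q) / 2 ^ L * b))| * 2 ^ q ≤ 1 := by
    intro i
    obtain ⟨k, h1, h2, h3⟩ := CAP.dirichlet_step
      (κ := {n // n ∈ (W L (t i)).filter (fun n => n ∈ B)}) q _ (le_of_eq (Fintype.card_coe _))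
      (fun n => (2 : ℝ) ^ (t i + q) / 2 ^ L * ((n : ℕ) : ℝ))
    exact ⟨k, h1, h2, fun b hb hw => h3 ⟨b, Finset.mem_filter.2 ⟨hw, hb⟩⟩⟩
  choose k hk1 hk2 hk3 using hth
  have hL0 : (0 : ℝ) < 2 ^ L := by positivity
  have hq0 : (0 : ℝ) < 2 ^ q := by positivity
  have heq : ∀ i, (k i : ℝ) * ((2 : ℝ) ^ (t i + q) / 2 ^ L) * 2 ^ L = k i * 2 ^ (t i + q) := by
    intro i
    field_simp
  have hlow : ∀ i, (2 : ℝ) ^ (t i + q) ≤ (k i : ℝ) * ((2 : ℝ) ^ (t i + q) / 2 ^ L) * 2 ^ L := by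
    intro i
    rw [heq]
    have h1 : (1 : ℝ) ≤ k i := by exact_mod_cast hk1 i
    have h2 : (0 : ℝ) < 2 ^ (t i + q) := by positivity
    nlinarith
  have hup : ∀ i < m, 2 ^ q * ((k i : ℝ) * ((2 : ℝ) ^ (t i + q) / 2 ^ L) * 2 ^ L) ≤
      2 ^ t (i + 1) := by
    intro i hi
    rw [heq]
    have h1 : (k i : ℝ) ≤ 2 ^ (q * ((W L (t i)).filter (fun n => n ∈ B)).card) := by
      exact_mod_cast hk2 i
    calc (2 : ℝ) ^ q * (k i * 2 ^ (t i + q)) ≤
          2 ^ q * (2 ^ (q * ((W L (t i)).filter (fun n => n ∈ B)).card) * 2 ^ (t i + q)) :=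
          mul_le_mul_of_nonneg_left (mul_le_mul_of_nonneg_right h1 (by positivity)) hq0.le
      _ = 2 ^ (t i + 2 * q + q * ((W L (t i)).filter (fun n => n ∈ B)).card) := by
          rw [← pow_add, ← pow_add]
          congr 1
          ring
      _ ≤ 2 ^ t (i + 1) := pow_le_pow_right₀ (by norm_num) (hstep i hi)
  refine ⟨fun i => (k i : ℝ) * ((2 : ℝ) ^ (t i + q) / 2 ^ L), fun i _ => ?_, fun i hi => ?_,
    fun i _ => ?_, fun i hi => ?_, fun hm => ?_, fun b hb hbL => ?_⟩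
  · have h1 : (0 : ℝ) < k i := by exact_mod_cast hk1 i
    positivity
  · have h1 := hup i (by omega)
    have h2 := hlow (i + 1)
    have h3 : (2 : ℝ) ^ t (i + 1) ≤ 2 ^ (t (i + 1) + q) :=
      pow_le_pow_right₀ (by norm_num) (Nat.le_add_right _ _)
    refine le_of_mul_le_mul_right ?_ hL0
    rw [mul_assoc]
    exact h1.trans (h3.trans h2)
  · exact (pow_le_pow_right₀ (by norm_num) (Nat.le_add_left _ _)).trans (hlow i)
  · have h1 := hup i hi
    have h2 : (2 : ℝ) ^ t (i + 1) ≤ 2 ^ L :=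
      pow_le_pow_right₀ (by norm_num) ((hmono _ _ (by omega) le_rfl).trans hL)
    refine le_of_mul_le_mul_right ?_ hL0
    rw [mul_assoc, one_mul]
    exact h1.trans h2
  · have h1 := cnt_le_window B L (t 0)
    have h2 := hch 0 hm
    have h3 : t 1 ≤ L := (hmono _ _ (by omega) le_rfl).trans hL
    have h4 : t 0 ≤ L := (hmono _ _ (by omega) le_rfl).trans hL
    rw [zero_add] at h2
    set l := ((W L (t 0)).filter (fun n => n ∈ B)).card with hl
    have h5 : l + q + 2 ≤ L := by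
      have : l + q + 2 ≤ (2 * q + 1) * (l + t 0 + 1) := by nlinarith
      omega
    have h6 : 2 ^ q * 2 ^ (L - t 0) ≤ 2 ^ (L - 1) := by
      rw [← pow_add]
      exact Nat.pow_le_pow_right (by norm_num) (by omega)
    have h7 : 2 ^ q * (l + 1) ≤ 2 ^ (L - 1) := by
      calc 2 ^ q * (l + 1) ≤ 2 ^ q * 2 ^ (l + 1) :=
            Nat.mul_le_mul_left _ (Nat.lt_two_pow_self).le
        _ = 2 ^ (q + (l + 1)) := by rw [← pow_add]
        _ ≤ 2 ^ (L - 1) := Nat.pow_le_pow_right (by norm_num) (by omega)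
    have h8 : 2 ^ (L - 1) + 2 ^ (L - 1) = 2 ^ L := by
      rw [← two_mul, ← pow_succ']
      congr 1
      omega
    calc 2 ^ q * (cnt B (2 ^ L) + 1) ≤ 2 ^ q * (2 ^ (L - t 0) + l + 1) :=
          Nat.mul_le_mul_left _ (by omega)
      _ = 2 ^ q * 2 ^ (L - t 0) + 2 ^ q * (l + 1) := by ring
      _ ≤ 2 ^ (L - 1) + 2 ^ (L - 1) := Nat.add_le_add h6 h7
      _ = 2 ^ L := h8
  · -- a frequency sees only the elements of one annulus
    have key : ∀ i < m, 1 < 2 ^ q * |(k i : ℝ) * ((2 : ℝ) ^ (t i + q) / 2 ^ L) * b -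
        round ((k i : ℝ) * ((2 : ℝ) ^ (t i + q) / 2 ^ L) * b)| →
        2 ^ (L - t (i + 1)) < b ∧ b ≤ 2 ^ (L - t i) := by
      intro i hi hbad
      constructor
      · by_contra hc
        rw [not_lt] at hc
        have hc' : (b : ℝ) ≤ 2 ^ (L - t (i + 1)) := by exact_mod_cast hc
        have h1 := hup i hi
        have h2 : t (i + 1) ≤ L := (hmono _ _ (by omega) le_rfl).trans hL
        have h3 : |(k i : ℝ) * ((2 : ℝ) ^ (t i + q) / 2 ^ L) * b -
            round ((k i : ℝ) * ((2 : ℝ) ^ (t i + q) / 2 ^ L) * b)| ≤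
            (k i : ℝ) * ((2 : ℝ) ^ (t i + q) / 2 ^ L) * b := by
          have h4 := round_le ((k i : ℝ) * ((2 : ℝ) ^ (t i + q) / 2 ^ L) * b) 0
          rw [Int.cast_zero, sub_zero, abs_of_nonneg (a := (k i : ℝ) * ((2 : ℝ) ^ (t i + q) / 2 ^ L) * b)
            (by positivity)] at h4
          exact h4
        have h5 : 2 ^ q * ((k i : ℝ) * ((2 : ℝ) ^ (t i + q) / 2 ^ L) * b) ≤ 1 := by
          refine le_of_mul_le_mul_right ?_ hL0
          rw [one_mul]
          calc 2 ^ q * ((k i : ℝ) * ((2 : ℝ) ^ (t i + q) / 2 ^ L) * b) * 2 ^ L =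
                (2 ^ q * ((k i : ℝ) * ((2 : ℝ) ^ (t i + q) / 2 ^ L) * 2 ^ L)) * b := by ring
            _ ≤ 2 ^ t (i + 1) * 2 ^ (L - t (i + 1)) :=
                mul_le_mul h1 hc' (Nat.cast_nonneg _) (by positivity)
            _ = 2 ^ L := by
                rw [← pow_add]
                congr 1
                omega
        have h6 := mul_le_mul_of_nonneg_left h3 hq0.le
        linarith
      · by_contra hc
        rw [not_le] at hc
        have h1 := hk3 i b hb (by unfold W; exact Finset.mem_Ioc.2 ⟨hc, hbL⟩)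
        rw [← mul_assoc, mul_comm] at h1
        linarith
    rw [Finset.card_le_one]
    intro i hi j hj
    rw [Finset.mem_filter, Finset.mem_range] at hi hj
    obtain ⟨i1, i2⟩ := key i hi.1 hi.2
    obtain ⟨j1, j2⟩ := key j hj.1 hj.2
    by_contra hne
    rcases lt_or_gt_of_ne hne with h | h
    · have h3 := hmono (i + 1) j (by omega) hj.1.le
      have h4 : 2 ^ (L - t j) ≤ 2 ^ (L - t (i + 1)) :=
        Nat.pow_le_pow_right (by norm_num) (by omega)
      omega
    · have h3 := hmono (j + 1) i (by omega) hi.1.le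
      have h4 : 2 ^ (L - t i) ≤ 2 ^ (L - t (j + 1)) :=
        Nat.pow_le_pow_right (by norm_num) (by omega)
      omega

end Pool.Agent.Lib.MP_b75bf2_nt.RND.ListsM
end

section
/-!
# The main case: sums of boundedly many elements of the random set carry measures with small
Fourier transform
-/
set_option autoImplicit false
open Classical MeasureTheory ProbabilityTheory
open scoped Pointwise

namespace Pool.Agent.Lib.MP_b75bf2_nt.RND.MainM

lemma blk_nonneg {p : ℕ → ℝ} (h : ∀ n, 0 ≤ p n) (k : ℕ) : 0 ≤ blk p k := by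
  unfold blk
  exact mul_nonneg (by positivity) (h _)

lemma A_nonneg {a : ℕ → ℝ} (h : ∀ n, 0 ≤ a n) (L t : ℕ) : 0 ≤ A a L t :=
  Finset.sum_nonneg fun k _ => h k

lemma A_mono {a : ℕ → ℝ} (h : ∀ n, 0 ≤ a n) (L : ℕ) {s t : ℕ} (hst : s ≤ t) :
    A a L s ≤ A a L t := by
  unfold A
  refine Finset.sum_le_sum_of_subset_of_nonneg ?_ fun k _ _ => h k
  exact Finset.Ico_subset_Ico (by omega) le_rfl

/-- The scale: from a good level to every `x`. -/
lemma scale {E : Set ℕ} {ε : ℝ} {N K C L₀ : ℕ} (hN : 0 < N)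
    (h : ∀ L, L₀ ≤ L → ∀ x : ℕ, N * 2 ^ L ≤ x → ∃ ν : ℕ → ℝ, (∀ b, 0 ≤ ν b) ∧
      (∀ b, ν b ≠ 0 → b ∈ E ∧ b ≤ x) ∧ ∑ b ∈ Finset.range (x + 1), ν b = 1 ∧
      ∀ θ : ℝ, (∀ j : ℤ, 2 ^ (K + C) / 2 ^ L ≤ |θ - j|) → ‖ft ν x θ‖ ≤ ε) :
    ∃ D : ℝ, 0 < D ∧ ∀ x : ℕ, D ≤ x → ∃ ν : ℕ → ℝ, (∀ b, 0 ≤ ν b) ∧
      (∀ b, ν b ≠ 0 → b ∈ E ∧ b ≤ x) ∧ ∑ b ∈ Finset.range (x + 1), ν b = 1 ∧
      ∀ θ : ℝ, (∀ j : ℤ, D / x ≤ |θ - j|) → ‖ft ν x θ‖ ≤ ε := by
  have hN' : (0 : ℝ) < N := by exact_mod_cast hN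
  refine ⟨N * 2 ^ L₀ + 2 ^ (K + C) * (2 * N), by positivity, fun x hx => ?_⟩
  have hx1 : N * 2 ^ L₀ ≤ x := by
    have h1 : (N : ℝ) * 2 ^ L₀ ≤ x := le_trans (by
      have : (0 : ℝ) ≤ 2 ^ (K + C) * (2 * N) := by positivity
      linarith) hx
    exact_mod_cast h1
  have hx2 : 2 ^ L₀ ≤ x / N := (Nat.le_div_iff_mul_le hN).2 (by rw [mul_comm]; exact hx1)
  have hx3 : x / N ≠ 0 := by
    have : 0 < 2 ^ L₀ := by positivity
    omega
  set L := Nat.log 2 (x / N) with hL
  have hL0 : L₀ ≤ L := (Nat.le_log_iff_pow_le (by norm_num) hx3).2 hx2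
  have hL1 : N * 2 ^ L ≤ x := by
    have h1 : 2 ^ L ≤ x / N := Nat.pow_log_le_self 2 hx3
    have h2 := (Nat.le_div_iff_mul_le hN).1 h1
    rw [mul_comm]; exact h2
  have hL2 : x < N * 2 ^ (L + 1) := by
    have h1 : x / N < 2 ^ (L + 1) := Nat.lt_pow_succ_log_self (by norm_num) _
    have h2 := (Nat.div_lt_iff_lt_mul hN).1 h1
    rw [mul_comm]; exact h2
  obtain ⟨ν, h1, h2, h3, h4⟩ := h L hL0 x hL1
  refine ⟨ν, h1, h2, h3, fun θ hθ => h4 θ fun j => le_trans ?_ (hθ j)⟩
  have hx0 : (0 : ℝ) < x := lt_of_lt_of_le (by positivity) hx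
  rw [div_le_div_iff₀ (by positivity) hx0]
  have hL2' : (x : ℝ) < N * 2 ^ (L + 1) := by exact_mod_cast hL2
  have h5 : (2 : ℝ) ^ (K + C) * x ≤ 2 ^ (K + C) * (N * 2 ^ (L + 1)) :=
    mul_le_mul_of_nonneg_left hL2'.le (by positivity)
  have h6 : (0 : ℝ) ≤ N * 2 ^ L₀ * 2 ^ L := by positivity
  have h7 : (2 : ℝ) ^ (K + C) * (N * 2 ^ (L + 1)) = 2 ^ (K + C) * (2 * N) * 2 ^ L := by
    rw [pow_succ]; ring
  nlinarith

/-- One window fails rarely. -/
lemma fail_le {H c u v S : ℝ} {t' : ℕ} {M : ℕ} (hH : 0 < H) (hS : 1 ≤ S) (hM : 4 ≤ c * M)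
    (hc : 0 < c) (hu : 0 ≤ v) (huv : u ≤ v)
    (h : (2 : ℝ) ^ t' ≤ S ∨ (M : ℝ) * t' ≤ v) :
    H * 2 ^ t' * Real.exp (-(c * v)) ≤ H * S * Real.exp (-(c / 2 * u)) := by
  have hcu : c / 2 * u ≤ c / 2 * v := mul_le_mul_of_nonneg_left huv (by positivity)
  have hcv : 0 ≤ c * v := mul_nonneg hc.le hu
  rcases h with h | h
  · have h1 : Real.exp (-(c * v)) ≤ Real.exp (-(c / 2 * u)) :=
      Real.exp_le_exp.2 (by linarith)
    exact mul_le_mul (mul_le_mul_of_nonneg_left h hH.le) h1 (Real.exp_pos _).le (by positivity)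
  · have h1 : (2 : ℝ) ^ t' ≤ Real.exp t' := by
      have h2 : (2 : ℝ) ≤ Real.exp 1 := by
        have := Real.add_one_le_exp 1
        linarith
      calc (2 : ℝ) ^ t' ≤ Real.exp 1 ^ t' := pow_le_pow_left₀ (by norm_num) h2 _
        _ = Real.exp t' := by rw [← Real.exp_nat_mul, mul_one]
    have h3 : (t' : ℝ) ≤ c * v / 4 := by
      have h4 : 4 * (t' : ℝ) ≤ c * M * t' := mul_le_mul_of_nonneg_right hM (Nat.cast_nonneg _)
      have h5 : c * (M * t') ≤ c * v := mul_le_mul_of_nonneg_left h hc.le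
      linarith
    have h6 : (2 : ℝ) ^ t' * Real.exp (-(c * v)) ≤ Real.exp (-(c / 2 * u)) := by
      calc (2 : ℝ) ^ t' * Real.exp (-(c * v)) ≤ Real.exp t' * Real.exp (-(c * v)) :=
            mul_le_mul_of_nonneg_right h1 (Real.exp_pos _).le
        _ = Real.exp (t' + -(c * v)) := (Real.exp_add _ _).symm
        _ ≤ Real.exp (-(c / 2 * u)) := Real.exp_le_exp.2 (by linarith)
    calc H * 2 ^ t' * Real.exp (-(c * v)) = H * (2 ^ t' * Real.exp (-(c * v))) := by ring
      _ ≤ H * Real.exp (-(c / 2 * u)) := mul_le_mul_of_nonneg_left h6 hH.le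
      _ ≤ H * S * Real.exp (-(c / 2 * u)) := by
          refine mul_le_mul_of_nonneg_right ?_ (Real.exp_pos _).le
          nlinarith

theorem specMain (hC : SpecCover) (hH : SpecHolder) (hG : SpecGrid) (hMs : SpecMeas) :
    SpecMain := by
  intro Ω _ μ p B hR hcase hdense
  have ha : ∀ n, 0 ≤ blk p n := blk_nonneg hR.nonneg
  obtain ⟨N, hN⟩ := hC (blk p) ha hcase
  obtain ⟨K₀, hK₀⟩ := hdense
  refine ⟨N + 1, ?_⟩
  -- it suffices to treat one `ε`
  suffices hone : ∀ ε : ℝ, 0 < ε → ε ≤ 1 → ∀ᵐ ω ∂μ, ∃ D : ℝ, 0 < D ∧ ∀ x : ℕ, D ≤ x →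
      ∃ ν : ℕ → ℝ, (∀ b, 0 ≤ ν b) ∧
      (∀ b, ν b ≠ 0 → b ∈ sums (B ω) (fun _ => N + 1) ∧ b ≤ x) ∧
      ∑ b ∈ Finset.range (x + 1), ν b = 1 ∧
      ∀ θ : ℝ, (∀ j : ℤ, D / x ≤ |θ - j|) → ‖ft ν x θ‖ ≤ ε by
    have h1 := ae_all_iff.2 fun k : ℕ => hone (1 / ((k : ℝ) + 1)) (by positivity) (by
      rw [div_le_one (by positivity)]
      have : (0 : ℝ) ≤ k := Nat.cast_nonneg _
      linarith)
    filter_upwards [h1] with ω hω
    intro ε hε
    obtain ⟨k, hk⟩ := exists_nat_one_div_lt hε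
    obtain ⟨D, hD, h2⟩ := hω k
    refine ⟨D, hD, fun x hx => ?_⟩
    obtain ⟨ν, h3, h4, h5, h6⟩ := h2 x hx
    exact ⟨ν, h3, h4, h5, fun θ hθ => (h6 θ hθ).trans hk.le⟩
  intro ε hε hε1
  obtain ⟨C, c, H, hc, hH0, hgrid⟩ := hG ε hε hε1
  obtain ⟨M, hM0, hM⟩ : ∃ M : ℕ, 0 < M ∧ 4 ≤ c * M := by
    obtain ⟨M, hM⟩ := exists_nat_ge (4 / c)
    refine ⟨M + 1, by omega, ?_⟩
    rw [div_le_iff₀ hc] at hM
    push_cast
    linarith
  obtain ⟨T, hT⟩ := hN M hM0
  obtain ⟨r, hr0, hr⟩ : ∃ r : ℕ, 0 < r ∧ 1 ≤ c / 2 * r := by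
    obtain ⟨r, hr⟩ := exists_nat_ge (1 / (c / 2))
    refine ⟨r + 1, by omega, ?_⟩
    rw [div_le_iff₀ (by positivity)] at hr
    push_cast
    linarith
  have hsum : Summable fun L : ℕ => Real.exp (-(c / 2 * A (blk p) L (r * K₀))) := by
    refine hH (blk p) ha r K₀ (c / 2) hr0 (by positivity) ?_
    refine Summable.of_nonneg_of_le (fun L => (Real.exp_pos _).le) (fun L => ?_) hK₀
    refine Real.exp_le_exp.2 (neg_le_neg ?_)
    have := mul_le_mul_of_nonneg_right hr (A_nonneg ha L K₀)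
    linarith
  set K : ℕ := r * K₀ with hK
  set t₀ : ℕ := max T (K + 1) with ht₀
  have hTt : T ≤ t₀ := le_max_left _ _
  have hKt : K < t₀ := lt_of_lt_of_le (Nat.lt_succ_self K) (le_max_right _ _)
  choose n t hn ht0 htn hstep using fun l : ℕ => hT (t₀ + l) t₀ hTt (Nat.le_add_right _ _)
  -- the windows
  let s : ℕ → ℕ → ℕ := fun l i => if i = 0 then K else t l (i - 1)
  have hs0 : ∀ l, s l 0 = K := fun l => by simp [s]
  have hs1 : ∀ l i, s l (i + 1) = t l i := fun l i => by simp [s]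
  have hslt : ∀ l, ∀ i < n l + 1, s l i < s l (i + 1) := by
    intro l i hi
    rcases Nat.eq_zero_or_pos i with h | h
    · rw [h, hs0, hs1, ht0]; exact hKt
    · obtain ⟨j, rfl⟩ : ∃ j, i = j + 1 := ⟨i - 1, by omega⟩
      rw [hs1, hs1]
      exact (hstep l j (by omega)).1
  have hsK : ∀ l, ∀ i ≤ n l + 1, K ≤ s l i := by
    intro l i
    induction i with
    | zero => intro _; rw [hs0]
    | succ i ih => intro hi; exact (ih (by omega)).trans (hslt l i (by omega)).le
  have hsL : ∀ l, ∀ i ≤ n l + 1, s l i ≤ t₀ + l := by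
    intro l i hi
    have h1 : ∀ d i, i + d = n l + 1 → s l i ≤ s l (n l + 1) := by
      intro d
      induction d with
      | zero => intro i hi; rw [← hi, Nat.add_zero]
      | succ d ih =>
        intro i hi
        exact (hslt l i (by omega)).le.trans (ih (i + 1) (by omega))
    have h2 := h1 (n l + 1 - i) i (by omega)
    rw [hs1, htn] at h2
    exact h2
  let F : ℕ → ℕ → Set Ω := fun l i =>
    {ω | ¬ GoodW p (B ω) (t₀ + l) (s l i) (s l (i + 1)) ε C}
  let G : ℕ → Set Ω := fun l => ⋃ i ∈ Finset.range (n l + 1), F l i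
  set u : ℕ → ℝ := fun l => Real.exp (-(c / 2 * A (blk p) (t₀ + l) K)) with hu
  have hFi : ∀ l, ∀ i < n l + 1, μ (F l i) ≤ ENNReal.ofReal (H * 2 ^ t₀ * u l) := by
    intro l i hi
    refine (hgrid Ω μ p B hR (t₀ + l) (s l i) (s l (i + 1)) (hsL l i hi.le)).trans ?_
    refine ENNReal.ofReal_le_ofReal ?_
    refine fail_le hH0 (one_le_pow₀ (by norm_num)) hM hc (A_nonneg ha _ _)
      (A_mono ha _ (hsK l i hi.le)) ?_
    rcases Nat.eq_zero_or_pos i with h | h
    · left
      rw [h, hs1, ht0]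
    · right
      obtain ⟨j, rfl⟩ : ∃ j, i = j + 1 := ⟨i - 1, by omega⟩
      rw [hs1, hs1]
      exact (hstep l j (by omega)).2
  have hGl : ∀ l, μ (G l) ≤ ENNReal.ofReal (((N + 1 : ℕ) : ℝ) * (H * 2 ^ t₀ * u l)) := by
    intro l
    have h1 : μ (G l) ≤ ∑ i ∈ Finset.range (n l + 1), μ (F l i) := measure_biUnion_finset_le _ _
    have h2 : ∑ i ∈ Finset.range (n l + 1), μ (F l i) ≤
        ∑ _i ∈ Finset.range (n l + 1), ENNReal.ofReal (H * 2 ^ t₀ * u l) :=
      Finset.sum_le_sum fun i hi => hFi l i (Finset.mem_range.1 hi)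
    refine (h1.trans h2).trans ?_
    rw [Finset.sum_const, Finset.card_range, nsmul_eq_mul, ENNReal.ofReal_mul (Nat.cast_nonneg _),
      ENNReal.ofReal_natCast]
    refine mul_le_mul_left ?_ _
    exact_mod_cast Nat.succ_le_succ (hn l)
  have hsu : Summable u := by
    have h1 := (summable_nat_add_iff (f := fun L : ℕ =>
      Real.exp (-(c / 2 * A (blk p) L K))) t₀).2 hsum
    refine h1.congr fun l => ?_
    rw [hu, Nat.add_comm l t₀]
  have hfin : ∑' l, μ (G l) ≠ ⊤ := by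
    have h1 : Summable fun l : ℕ => ((N + 1 : ℕ) : ℝ) * (H * 2 ^ t₀ * u l) :=
      (hsu.mul_left _).mul_left _
    exact ne_top_of_le_ne_top h1.tsum_ofReal_ne_top (ENNReal.tsum_le_tsum hGl)
  have hpos : ∀ᶠ l in Filter.atTop, 0 < A (blk p) (t₀ + l) K := by
    have h1 : ∀ᶠ l in Filter.atTop, u l < 1 :=
      hsu.tendsto_atTop_zero.eventually_lt_const (by norm_num)
    filter_upwards [h1] with l hl
    rcases (A_nonneg ha (t₀ + l) K).lt_or_eq with h2 | h2
    · exact h2
    · exfalso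
      rw [hu] at hl
      simp only [← h2, mul_zero, neg_zero, Real.exp_zero, lt_irrefl] at hl
  filter_upwards [ae_eventually_notMem hfin] with ω hω
  obtain ⟨l₀, hl₀⟩ := Filter.eventually_atTop.1 (hω.and hpos)
  refine scale (N := N + 1) (K := K) (C := C) (L₀ := t₀ + l₀) (by omega) ?_
  intro L hL x hx
  obtain ⟨l, rfl⟩ : ∃ l, L = t₀ + l := ⟨L - t₀, by omega⟩
  obtain ⟨hgood, hposl⟩ := hl₀ l (by omega)
  have hgd : ∀ i < n l + 1, GoodW p (B ω) (t₀ + l) (s l i) (s l (i + 1)) ε C := by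
    intro i hi
    by_contra hcon
    refine hgood ?_
    simp only [G, Set.mem_iUnion]
    exact ⟨i, Finset.mem_range.2 hi, hcon⟩
  obtain ⟨ν, h1, h2, h3, h4⟩ := hMs p (B ω) (t₀ + l) (n l + 1) (N + 1) (s l) ε C hR.nonneg
    (hR.zero ω) hε hε1 (Nat.succ_le_succ (hn l)) (by rw [hs1, htn]) (hslt l)
    (fun i hi => lt_of_lt_of_le hposl (A_mono ha _ (hsK l i hi.le))) hgd x hx
  exact ⟨ν, h1, h2, h3, fun θ hθ => h4 θ (by rw [hs0]; exact hθ)⟩

end Pool.Agent.Lib.MP_b75bf2_nt.RND.MainM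
end

section
/-!
# (P4) From good windows to a measure

The convolution of the normalised weights of the windows `t i`, `i < n`, written as a sum over the
choice functions.
-/
set_option autoImplicit false
open Classical
open scoped Pointwise

namespace Pool.Agent.Lib.MP_b75bf2_nt.RND.MeasM

/-- The elements of `B` in the window. -/
noncomputable def F (B : Set ℕ) (L t : ℕ) : Finset ℕ := (W L t).filter (fun n => n ∈ B)

/-- The normalised weight. -/
noncomputable def w (p : ℕ → ℝ) (B : Set ℕ) (L t : ℕ) (b : ℕ) : ℝ := wt p b / Sm p B L t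

/-- The convolution of the normalised weights. -/
noncomputable def nu (p : ℕ → ℝ) (B : Set ℕ) (L n : ℕ) (t : ℕ → ℕ) (b : ℕ) : ℝ :=
  ∑ f ∈ (Fintype.piFinset (fun i : Fin n => F B L (t i)) : Finset (Fin n → ℕ)),
    if ∑ i, f i = b then ∏ i : Fin n, w p B L (t i) (f i) else 0

section
variable {p : ℕ → ℝ} {B : Set ℕ} {L n : ℕ} {t : ℕ → ℕ}

lemma wt_nonneg (hp : ∀ n, 0 ≤ p n) (b : ℕ) : 0 ≤ wt p b := div_nonneg (hp _) (hp _)

lemma Sm_nonneg (hp : ∀ n, 0 ≤ p n) (t : ℕ) : 0 ≤ Sm p B L t :=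
  Finset.sum_nonneg fun b _ => wt_nonneg hp b

lemma w_nonneg (hp : ∀ n, 0 ≤ p n) (t b : ℕ) : 0 ≤ w p B L t b :=
  div_nonneg (wt_nonneg hp b) (Sm_nonneg hp t)

lemma sum_w {s : ℕ} (hs : 0 < Sm p B L s) : ∑ b ∈ F B L s, w p B L s b = 1 := by
  unfold w
  rw [← Finset.sum_div]
  exact div_self hs.ne'

lemma sum_w_e (s : ℕ) (θ : ℝ) :
    ∑ b ∈ F B L s, (w p B L s b : ℂ) * e (b * θ) = S p B L s θ / (Sm p B L s : ℂ) := by
  unfold S w F
  rw [Finset.sum_div]
  refine Finset.sum_congr rfl fun b _ => ?_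
  push_cast
  ring

lemma mem_F {s b : ℕ} (h : b ∈ F B L s) : b ∈ B ∧ b ≤ 2 ^ L := by
  unfold F W at h
  rw [Finset.mem_filter, Finset.mem_Ioc] at h
  exact ⟨h.2, h.1.2⟩

lemma sum_le {f : Fin n → ℕ} (hf : f ∈ Fintype.piFinset (fun i : Fin n => F B L (t i))) :
    ∑ i, f i ≤ n * 2 ^ L := by
  have h1 : ∑ i, f i ≤ ∑ _i : Fin n, 2 ^ L := by
    refine Finset.sum_le_sum fun i _ => ?_
    have h2 := Fintype.mem_piFinset.1 hf i
    exact (mem_F h2).2
  simpa using h1

lemma nu_nonneg (hp : ∀ n, 0 ≤ p n) (b : ℕ) : 0 ≤ nu p B L n t b := by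
  unfold nu
  refine Finset.sum_nonneg fun f _ => ?_
  split_ifs
  · exact Finset.prod_nonneg fun i _ => w_nonneg hp _ _
  · exact le_rfl

lemma nu_supp {N : ℕ} (hn : n ≤ N) {b : ℕ} (hb : nu p B L n t b ≠ 0) :
    b ∈ sums B (fun _ => N) ∧ b ≤ n * 2 ^ L := by
  unfold nu at hb
  obtain ⟨f, hf, hne⟩ := Finset.exists_ne_zero_of_sum_ne_zero hb
  have hs : ∑ i, f i = b := by
    by_contra hc
    exact hne (if_neg hc)
  refine ⟨⟨List.ofFn f, ?_, ?_⟩, ?_⟩
  · intro c hc
    rw [List.mem_ofFn] at hc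
    obtain ⟨i, rfl⟩ := hc
    have h2 := Fintype.mem_piFinset.1 hf i
    exact ⟨(mem_F h2).1, by simpa using hn⟩
  · rw [List.sum_ofFn, hs]
  · rw [← hs]
    exact sum_le hf

/-- Integration of a multiplicative function against the convolution. -/
lemma sum_nu_mul {x : ℕ} (hx : n * 2 ^ L ≤ x) (g : ℕ → ℂ) (g0 : g 0 = 1)
    (gm : ∀ a b, g (a + b) = g a * g b) :
    ∑ b ∈ Finset.range (x + 1), (nu p B L n t b : ℂ) * g b =
      ∏ i : Fin n, ∑ b ∈ F B L (t i), (w p B L (t i) b : ℂ) * g b := by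
  have gs : ∀ f : Fin n → ℕ, g (∑ i, f i) = ∏ i, g (f i) := by
    intro f
    induction (Finset.univ : Finset (Fin n)) using Finset.induction_on with
    | empty => simpa using g0
    | insert a s ha ih => rw [Finset.sum_insert ha, Finset.prod_insert ha, gm, ih]
  rw [Finset.prod_univ_sum]
  unfold nu
  simp_rw [Complex.ofReal_sum, Finset.sum_mul]
  rw [Finset.sum_comm]
  refine Finset.sum_congr rfl fun f hf => ?_
  rw [Finset.sum_eq_single (∑ i, f i)]
  · rw [if_pos rfl, gs, Complex.ofReal_prod, ← Finset.prod_mul_distrib]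
  · intro b _ hb
    rw [if_neg (Ne.symm hb)]
    simp
  · intro hb
    exact absurd (Finset.mem_range.2 (Nat.lt_succ_of_le ((sum_le hf).trans hx))) hb

lemma sum_nu {x : ℕ} (hx : n * 2 ^ L ≤ x) (hs : ∀ i < n, 0 < Sm p B L (t i)) :
    ∑ b ∈ Finset.range (x + 1), nu p B L n t b = 1 := by
  have h1 := sum_nu_mul (p := p) (B := B) (t := t) hx (fun _ => 1) rfl (fun _ _ => by simp)
  have h2 : ∏ i : Fin n, ∑ b ∈ F B L (t i), (w p B L (t i) b : ℂ) * 1 = 1 := by
    refine Finset.prod_eq_one fun i _ => ?_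
    have h3 := sum_w (p := p) (B := B) (hs i i.2)
    simp only [mul_one]
    exact_mod_cast congrArg (fun z : ℝ => (z : ℂ)) h3
  rw [h2] at h1
  simp only [mul_one] at h1
  exact_mod_cast h1

lemma ft_nu {x : ℕ} (hx : n * 2 ^ L ≤ x) (θ : ℝ) :
    ft (nu p B L n t) x θ = ∏ i : Fin n, (S p B L (t i) θ / (Sm p B L (t i) : ℂ)) := by
  have h1 := sum_nu_mul (p := p) (B := B) (t := t) hx (fun b => e (b * θ)) (by simp [e])
    (fun a b => by
      unfold e
      rw [← Complex.exp_add]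
      congr 1
      push_cast
      ring)
  unfold ft
  have h2 : ∀ b : ℕ, Complex.exp (2 * Real.pi * Complex.I * (b * θ)) = e (b * θ) := by
    intro b
    unfold e
    push_cast
    rfl
  simp_rw [h2, h1, sum_w_e]

lemma norm_S_le (hp : ∀ n, 0 ≤ p n) (s : ℕ) (θ : ℝ) : ‖S p B L s θ‖ ≤ Sm p B L s := by
  unfold S Sm
  refine (norm_sum_le _ _).trans (Finset.sum_le_sum fun b _ => ?_)
  have h1 : ‖e (b * θ)‖ = 1 := by
    unfold e
    rw [Complex.norm_exp]
    simp
  rw [norm_mul, h1, mul_one, Complex.norm_real, Real.norm_of_nonneg (wt_nonneg hp b)]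

end

theorem specMeas : SpecMeas := by
  intro p B L n N t ε C hp _h0 hε hε1 hnN htn _hmono hA hG x hx
  have hx' : n * 2 ^ L ≤ x := (Nat.mul_le_mul_right _ hnN).trans hx
  have hS : ∀ i < n, 0 < Sm p B L (t i) := by
    intro i hi
    have h1 := (hG i hi).1
    have h2 := hA i hi
    linarith
  refine ⟨nu p B L n t, fun b => nu_nonneg hp b, fun b hb => ?_, sum_nu hx' hS, fun θ hθ => ?_⟩
  · obtain ⟨h1, h2⟩ := nu_supp hnN hb
    exact ⟨h1, h2.trans hx'⟩
  · rw [ft_nu hx' θ, norm_prod]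
    have hex : ∃ i < n, (∀ j : ℤ, (2 : ℝ) ^ (t i + C) / 2 ^ L ≤ |θ - j|) ∧
        ¬ (∀ j : ℤ, (2 : ℝ) ^ (t (i + 1) + C) / 2 ^ L ≤ |θ - j|) := by
      by_contra hc
      push Not at hc
      have hall : ∀ i ≤ n, ∀ j : ℤ, (2 : ℝ) ^ (t i + C) / 2 ^ L ≤ |θ - j| := by
        intro i
        induction i with
        | zero => intro _; exact hθ
        | succ i ih =>
          intro hi
          exact hc i (by omega) (ih (by omega))
      have h1 := hall n le_rfl (round θ)
      have h2 : |θ - round θ| ≤ 1 / 2 := abs_sub_round θ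
      have h3 : (2 : ℝ) ^ (t n + C) / 2 ^ L = 2 ^ C := by
        rw [htn, pow_add]
        field_simp
      have h4 : (1 : ℝ) ≤ 2 ^ C := one_le_pow₀ (by norm_num)
      rw [h3] at h1
      linarith
    obtain ⟨i, hi, h1, h2⟩ := hex
    push Not at h2
    obtain ⟨j, hj⟩ := h2
    have h3 := (hG i hi).2 θ h1 ⟨j, hj.le⟩
    have hSi := hS i hi
    have hfac : ∀ k : Fin n, ‖S p B L (t k) θ / (Sm p B L (t k) : ℂ)‖ =
        ‖S p B L (t k) θ‖ / Sm p B L (t k) := by
      intro k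
      rw [norm_div, Complex.norm_real, Real.norm_of_nonneg (Sm_nonneg hp _)]
    simp_rw [hfac]
    rw [← Finset.mul_prod_erase Finset.univ _ (Finset.mem_univ (⟨i, hi⟩ : Fin n))]
    have h4 : ∏ k ∈ Finset.univ.erase (⟨i, hi⟩ : Fin n), ‖S p B L (t k) θ‖ / Sm p B L (t k) ≤ 1 := by
      refine Finset.prod_le_one (fun k _ => div_nonneg (norm_nonneg _) (Sm_nonneg hp _)) ?_
      intro k _
      exact (div_le_one (hS k k.2)).2 (norm_S_le hp _ _)
    have h5 : ‖S p B L (t i) θ‖ / Sm p B L (t i) ≤ ε := (div_le_iff₀ hSi).2 h3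
    have h6 : 0 ≤ ‖S p B L (t i) θ‖ / Sm p B L (t i) := div_nonneg (norm_nonneg _) hSi.le
    calc _ ≤ ‖S p B L (t i) θ‖ / Sm p B L (t i) * 1 := mul_le_mul_of_nonneg_left h4 h6
      _ ≤ ε := by rw [mul_one]; exact h5

end Pool.Agent.Lib.MP_b75bf2_nt.RND.MeasM
end

section
/-!
# The number of elements in a window

The mean number of elements of `B` in the window `W L t` is at most `3 * A a L (t + 1)`, and
`E exp N ≤ exp (2 * mean)`.
-/
set_option autoImplicit false
open Classical MeasureTheory ProbabilityTheory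
open scoped Pointwise

namespace Pool.Agent.Lib.MP_b75bf2_nt.RND

namespace NumM

/-- The indicator of `n ∈ B ω`. -/
noncomputable def ind {Ω : Type} (B : Ω → Set ℕ) (n : ℕ) (ω : Ω) : ℝ :=
  ({ω | n ∈ B ω} : Set Ω).indicator (fun _ => (1 : ℝ)) ω

theorem ind_eq {Ω : Type} (B : Ω → Set ℕ) (n : ℕ) (ω : Ω) :
    ind B n ω = if n ∈ B ω then 1 else 0 := by
  unfold ind
  simp [Set.indicator_apply]

theorem ind_le_one {Ω : Type} (B : Ω → Set ℕ) (n : ℕ) (ω : Ω) : ind B n ω ≤ 1 := by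
  rw [ind_eq]
  split_ifs <;> norm_num

theorem ind_nonneg {Ω : Type} (B : Ω → Set ℕ) (n : ℕ) (ω : Ω) : 0 ≤ ind B n ω := by
  rw [ind_eq]
  split_ifs <;> norm_num

theorem e_sub_one_le : Real.exp 1 - 1 ≤ 2 := by
  linarith [Real.exp_one_lt_d9]

section
variable {Ω : Type} [MeasurableSpace Ω] {μ : Measure Ω} {p : ℕ → ℝ} {B : Ω → Set ℕ}

theorem ind_measurable (h : Rnd μ p B) (n : ℕ) : Measurable (ind B n) := by
  unfold ind
  exact measurable_const.indicator (h.meas n)

theorem mgf_le (h : Rnd μ p B) (n : ℕ) (hn : 1 ≤ n) :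
    ∫ ω, Real.exp (ind B n ω) ∂μ ≤ Real.exp (2 * p n) := by
  have := h.prob
  have hreal : μ.real {ω | n ∈ B ω} = p n := by
    rw [Measure.real, h.mass n hn, ENNReal.toReal_ofReal (h.nonneg n)]
  have key : ∀ ω, Real.exp (ind B n ω) = 1 + (Real.exp 1 - 1) * ind B n ω := by
    intro ω
    rw [ind_eq]
    by_cases hω : n ∈ B ω
    · simp [hω]
    · simp [hω]
  have hint : Integrable (ind B n) μ := by
    refine Integrable.of_bound (ind_measurable h n).aestronglyMeasurable 1 ?_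
    refine Filter.Eventually.of_forall fun ω => ?_
    rw [Real.norm_eq_abs, abs_of_nonneg (ind_nonneg B n ω)]
    exact ind_le_one B n ω
  have hI : ∫ ω, ind B n ω ∂μ = p n := by
    unfold ind
    rw [integral_indicator (h.meas n)]
    simp [hreal]
  calc ∫ ω, Real.exp (ind B n ω) ∂μ
      = ∫ ω, (1 + (Real.exp 1 - 1) * ind B n ω) ∂μ := by simp_rw [key]
    _ = 1 + (Real.exp 1 - 1) * p n := by
        rw [integral_add (integrable_const _) (hint.const_mul _), integral_const_mul, hI]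
        simp
    _ ≤ 1 + 2 * p n := by
        have := e_sub_one_le
        have := h.nonneg n
        gcongr
    _ ≤ Real.exp (2 * p n) := by
        rw [add_comm]
        exact Real.add_one_le_exp _

/-- Chernoff for the number of elements. -/
theorem chernoff (h : Rnd μ p B) (F : Finset ℕ) (hF : ∀ n ∈ F, 1 ≤ n) (V s : ℝ)
    (hV : ∑ n ∈ F, p n ≤ V) :
    μ {ω | s ≤ ∑ n ∈ F, ind B n ω} ≤ ENNReal.ofReal (Real.exp (-s + 2 * V)) := by
  have := h.prob
  set X : ℕ → Ω → ℝ := fun n => ind B n with hX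
  have hindep : iIndepFun X μ := by
    have h0 : iIndepFun (fun n => ({ω | n ∈ B ω} : Set Ω).indicator fun _ω => (1 : ℝ)) μ :=
      h.indep.iIndepFun_indicator
    exact h0
  have hmeas : ∀ n, Measurable (X n) := fun n => ind_measurable h n
  have hmgf : mgf (∑ n ∈ F, X n) μ 1 ≤ Real.exp (2 * V) := by
    rw [hindep.mgf_sum hmeas F]
    calc ∏ n ∈ F, mgf (X n) μ 1 ≤ ∏ n ∈ F, Real.exp (2 * p n) := by
          refine Finset.prod_le_prod (fun n _ => mgf_nonneg) fun n hn => ?_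
          have h2 := mgf_le h n (hF n hn)
          unfold mgf
          simpa [hX] using h2
      _ = Real.exp (2 * ∑ n ∈ F, p n) := by
          rw [← Real.exp_sum, Finset.mul_sum]
      _ ≤ Real.exp (2 * V) := by gcongr
  have hint : Integrable (fun ω => Real.exp (1 * (∑ n ∈ F, X n) ω)) μ := by
    refine Integrable.of_bound ?_ (Real.exp (1 * ∑ _n ∈ F, (1 : ℝ))) ?_
    · have : Measurable (∑ n ∈ F, X n) := by
        have h1 := Finset.measurable_sum F (fun n (_ : n ∈ F) => hmeas n)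
        have h2 : (∑ n ∈ F, X n) = fun ω => ∑ n ∈ F, X n ω := by
          ext ω
          rw [Finset.sum_apply]
        rw [h2]
        exact h1
      exact (Real.measurable_exp.comp (this.const_mul 1)).aestronglyMeasurable
    · refine Filter.Eventually.of_forall fun ω => ?_
      rw [Real.norm_eq_abs, abs_of_pos (Real.exp_pos _)]
      gcongr
      rw [Finset.sum_apply]
      exact Finset.sum_le_sum fun n _ => ind_le_one B n ω
  have hch := measure_ge_le_exp_mul_mgf (μ := μ) (X := ∑ n ∈ F, X n) s zero_le_one hint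
  have hset : {ω | s ≤ ∑ n ∈ F, ind B n ω} = {ω | s ≤ (∑ n ∈ F, X n) ω} := by
    ext ω
    simp only [Set.mem_ofPred_eq, Finset.sum_apply, hX]
  rw [hset, ← ENNReal.ofReal_toReal (measure_ne_top μ {ω | s ≤ (∑ n ∈ F, X n) ω})]
  refine ENNReal.ofReal_le_ofReal ?_
  calc (μ {ω | s ≤ (∑ n ∈ F, X n) ω}).toReal ≤ Real.exp (-1 * s) * mgf (∑ n ∈ F, X n) μ 1 := hch
    _ ≤ Real.exp (-1 * s) * Real.exp (2 * V) := by gcongr
    _ = Real.exp (-s + 2 * V) := by
        rw [← Real.exp_add]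
        congr 1
        ring

end

/-- The sum of `p` over one block. -/
theorem block_le (p : ℕ → ℝ) (anti : ∀ m n, 1 ≤ m → m ≤ n → p n ≤ p m) (k : ℕ) :
    ∑ n ∈ Finset.Ioc (2 ^ k) (2 ^ (k + 1)), p n ≤
      if k = 0 then blk p 0 else 2 * blk p (k - 1) := by
  have hcard : (Finset.Ioc (2 ^ k) (2 ^ (k + 1))).card = 2 ^ k := by
    rw [Nat.card_Ioc, pow_succ]
    omega
  rcases Nat.eq_zero_or_pos k with hk | hk
  · subst hk
    have : Finset.Ioc (2 ^ 0) (2 ^ (0 + 1)) = ({2} : Finset ℕ) := by decide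
    rw [this]
    have h1 : blk p 0 = p 2 := by
      unfold blk
      norm_num
    simp only [Finset.sum_singleton, if_true]
    rw [h1]
  · have hk0 : k ≠ 0 := by omega
    simp only [hk0, if_false]
    calc ∑ n ∈ Finset.Ioc (2 ^ k) (2 ^ (k + 1)), p n
        ≤ ∑ _n ∈ Finset.Ioc (2 ^ k) (2 ^ (k + 1)), p (2 ^ k) := by
          refine Finset.sum_le_sum fun n hn => ?_
          rw [Finset.mem_Ioc] at hn
          exact anti _ _ Nat.one_le_two_pow hn.1.le
      _ = 2 ^ k * p (2 ^ k) := by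
          rw [Finset.sum_const, hcard, nsmul_eq_mul]
          push_cast
          ring
      _ = 2 * blk p (k - 1) := by
          obtain ⟨j, rfl⟩ : ∃ j, k = j + 1 := ⟨k - 1, by omega⟩
          unfold blk
          rw [Nat.add_sub_cancel, pow_succ]
          ring

/-- The window is the union of its blocks. -/
theorem window_sum (f : ℕ → ℝ) (a b : ℕ) (hab : a ≤ b) :
    ∑ n ∈ Finset.Ioc (2 ^ a) (2 ^ b), f n =
      ∑ k ∈ Finset.Ico a b, ∑ n ∈ Finset.Ioc (2 ^ k) (2 ^ (k + 1)), f n := by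
  induction b, hab using Nat.le_induction with
  | base => simp
  | succ b hab ih =>
    rw [Finset.sum_Ico_succ_top hab, ← ih,
      Finset.sum_Ioc_consecutive f (Nat.pow_le_pow_right (by norm_num) hab)
        (Nat.pow_le_pow_right (by norm_num) (Nat.le_succ b))]

/-- Shift of the blocks. -/
theorem shift_le (a : ℕ → ℝ) (ha : ∀ k, 0 ≤ a k) (l b : ℕ) (hl : 1 ≤ l) :
    ∑ k ∈ Finset.Ico l b, (if k = 0 then a 0 else 2 * a (k - 1)) ≤
      2 * ∑ k ∈ Finset.Ico (l - 1) b, a k := by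
  have e1 : ∑ k ∈ Finset.Ico l b, (if k = 0 then a 0 else 2 * a (k - 1))
      = ∑ k ∈ Finset.Ico (l - 1) (b - 1), 2 * a k := by
    rw [Finset.sum_Ico_eq_sum_range, Finset.sum_Ico_eq_sum_range]
    refine Finset.sum_congr (by congr 1; omega) fun k _ => ?_
    have h1 : l + k ≠ 0 := by omega
    simp only [h1, if_false]
    congr 2
    omega
  rw [e1, ← Finset.mul_sum]
  have e2 : ∑ k ∈ Finset.Ico (l - 1) (b - 1), a k ≤ ∑ k ∈ Finset.Ico (l - 1) b, a k :=
    Finset.sum_le_sum_of_subset_of_nonneg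
      (Finset.Ico_subset_Ico_right (by omega)) fun k _ _ => ha k
  linarith

theorem mean_le (p : ℕ → ℝ) (h0 : ∀ n, 0 ≤ p n) (anti : ∀ m n, 1 ≤ m → m ≤ n → p n ≤ p m)
    (L t : ℕ) (_ht : t ≤ L) : ∑ n ∈ W L t, p n ≤ 3 * A (blk p) L (t + 1) := by
  have hb : ∀ j, 0 ≤ blk p j := fun j => mul_nonneg (by positivity) (h0 _)
  unfold W A
  rw [window_sum p (L - t) L (Nat.sub_le _ _)]
  refine (Finset.sum_le_sum fun k _ => block_le p anti k).trans ?_
  rcases Nat.eq_zero_or_pos (L - t) with hz | hz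
  · have e1 : L - (t + 1) = 0 := by omega
    rw [hz, e1]
    rcases Nat.eq_zero_or_pos L with hL | hL
    · subst hL
      simp
    · have hS : blk p 0 ≤ ∑ k ∈ Finset.Ico 0 L, blk p k :=
        Finset.single_le_sum (f := blk p) (fun k _ => hb k) (Finset.mem_Ico.2 ⟨le_rfl, hL⟩)
      have h2 := shift_le (blk p) hb 1 L le_rfl
      rw [Finset.sum_eq_sum_Ico_succ_bot hL]
      simp only [if_true, zero_add]
      rw [show 1 - 1 = 0 from rfl] at h2
      linarith
  · have h2 := shift_le (blk p) hb (L - t) L hz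
    have e1 : L - t - 1 = L - (t + 1) := by omega
    rw [e1] at h2
    have hS : 0 ≤ ∑ k ∈ Finset.Ico (L - (t + 1)) L, blk p k := Finset.sum_nonneg fun k _ => hb k
    linarith

end NumM

open NumM in
theorem specNum : SpecNum := by
  intro Ω _ μ p B h L t ht
  have hm := mean_le p h.nonneg h.anti L t ht
  have hF : ∀ n ∈ W L t, 1 ≤ n := by
    intro n hn
    rw [W, Finset.mem_Ioc] at hn
    have := Nat.zero_le (2 ^ (L - t))
    exact Nat.one_le_iff_ne_zero.2
      (by intro h0; rw [h0] at hn; exact absurd hn.1 (Nat.not_lt_zero _))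
  have hc := chernoff h (W L t) hF (3 * A (blk p) L (t + 1)) (6 * A (blk p) L (t + 1) + t) hm
  refine (measure_mono ?_).trans (hc.trans (le_of_eq ?_))
  · intro ω hω
    simp only [Set.mem_ofPred_eq] at hω ⊢
    have : ∑ n ∈ W L t, ind B n ω = (((W L t).filter (fun n => n ∈ B ω)).card : ℝ) := by
      simp_rw [ind_eq]
      rw [Finset.sum_boole]
    rw [this]
    exact hω.le
  · congr 2
    ring

end Pool.Agent.Lib.MP_b75bf2_nt.RND
end

section
/-!
# Random sets: the theorem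
-/
set_option autoImplicit false

namespace Pool.Agent.Lib.MP_b75bf2_nt.RND

theorem final : SpecFinal :=
  FinalM.specFinal CAP.specPhase
    (MainM.specMain (CoverM.specCover GrowthM.specGrowth) HolderM.specHolder
      (GridM.specGrid ExpM.specExp specDev) MeasM.specMeas)
    (CaseOneM.specCaseOne ListsM.specLists specNum)
    (GapsM.specGaps HolderM.specHolder) GapPhaseM.specGapPhase

end Pool.Agent.Lib.MP_b75bf2_nt.RND
end
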