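import Pool.Agent.Lib.MP_b75bf2_nt.CAP.Defs
import Pool.Agent.Lib.MP_b75bf2_nt.Main

/-!
# Random sets: an essential component is extraordinary (definitions and interfaces)

`B` is a random set, the events `n ∈ B` are independent, of probability `p n`, and `p` is
nonincreasing. Then almost surely: if `B` is an essential component, it is extraordinary.

Everything is expressed by the masses `blk p k = 2 ^ k * p (2 ^ (k + 1))` of the thinned dyadic
blocks `(2 ^ k, 2 ^ (k + 1)]` (all weights lowered to the last one of the block) and their sums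
`A a L t` over the window `(2 ^ (L - t), 2 ^ L]`.

* Case one: there are arbitrarily long and sparse chains `t 0 < t 1 < ... < t J` of windows. Then
  the elements in the window `t i` can be killed by a frequency which does not see the elements
  below the window `t (i + 1)`; every element of `B` is seen by at most one of these frequencies.
  So `B` is not essential (`CAP.SpecPhase` with `s = 1`).
* Case two: `exp (- A a L K)` is not summable over `L` for any `K`. Then there are infinitely many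
  gaps `(2 ^ (L - K), 2 ^ L]` for every `K`, and `B` is not essential (`CAP.SpecPhase`, `s = 0`).
* Otherwise at most `N` windows (`N` fixed) are needed to control all frequencies, for every
  `ε`; so the `N`-fold sums of `B` carry measures with small Fourier transform (`Spectral`), and `B`
  is extraordinary (`spectral_sums`).
-/

set_option autoImplicit false
open Classical MeasureTheory ProbabilityTheory
open scoped Pointwise

namespace Pool.Agent.Lib.MP_b75bf2_nt.RND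

/-- The mass of the thinned dyadic block `(2 ^ k, 2 ^ (k + 1)]`. -/
noncomputable def blk (p : ℕ → ℝ) (k : ℕ) : ℝ := 2 ^ k * p (2 ^ (k + 1))

/-- The mass of the window of length `t` below `L` (natural subtraction: all of `[0, L)` if
`L ≤ t`). -/
noncomputable def A (a : ℕ → ℝ) (L t : ℕ) : ℝ := ∑ k ∈ Finset.Ico (L - t) L, a k

/-- Arbitrarily long and sparse chains of windows. -/
def CaseOne (a : ℕ → ℝ) : Prop :=
  ∀ J K C : ℕ, ∃ (L : ℕ) (t : ℕ → ℕ), K ≤ t 0 ∧ t J ≤ L ∧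
    ∀ i < J, (C : ℝ) * (A a L (t i + 1) + t i + 1) ≤ t (i + 1)

/-- The windows of some length have summable probabilities of being empty. -/
def Dense (a : ℕ → ℝ) : Prop := ∃ K : ℕ, Summable (fun L : ℕ => Real.exp (-(A a L K)))

/-- (D1) Linear growth. Proof: if `A a L t < D * t` then some `L'` in `(L - t / 2, L]` has
`A a L' s ≤ 4 * D * s` for all `1 ≤ s ≤ t / 2` (otherwise disjoint heavy windows cover
`(L - t / 2, L]`); then `τ 0 = K`, `τ (i + 1) = C * (4 * D + 1) * (τ i + 1)` is a chain below `L'`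
when `t` is large (take `J, K, C` from the negation of `CaseOne`). -/
def SpecGrowth : Prop :=
  ∀ a : ℕ → ℝ, (∀ k, 0 ≤ a k) → ¬ CaseOne a → ∀ D : ℕ, ∃ T : ℕ, ∀ L t : ℕ, T ≤ t → t ≤ L →
    (D : ℝ) * t ≤ A a L t

/-- (D2) At most `N` windows cover everything, for every `M`. Proof: let
`t (i + 1) = min L ⌊A a L (t i) / M⌋`; by (D1) `t (i + 1) ≥ R * t i` with a large `R`, so if
`t (3 * J + 1) < L` then `u j = t (3 * j)` is a chain: `A a L (u j + 1) ≤ A a L (t (3 * j + 1)) ≤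
M * (t (3 * j + 2) + 1)` and `u (j + 1) ≥ R * t (3 * j + 2)`. -/
def SpecCover : Prop :=
  ∀ a : ℕ → ℝ, (∀ k, 0 ≤ a k) → ¬ CaseOne a → ∃ N : ℕ, ∀ M : ℕ, 0 < M → ∃ T : ℕ, ∀ L t₀ : ℕ,
    T ≤ t₀ → t₀ ≤ L → ∃ (n : ℕ) (t : ℕ → ℕ), n ≤ N ∧ t 0 = t₀ ∧ t n = L ∧
      ∀ i < n, t i < t (i + 1) ∧ (M : ℝ) * t (i + 1) ≤ A a L (t i)

/-- (D3) Summability for longer windows. Proof: the window of length `r * K` consists of `r`
windows of length `K`, and `exp (-η * ∑ x j) ≤ exp (- η * r * min x j) ≤ ∑ exp (-η * r * x j)`. -/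
def SpecHolder : Prop :=
  ∀ a : ℕ → ℝ, (∀ k, 0 ≤ a k) → ∀ (r K : ℕ) (η : ℝ), 0 < r → 0 < η →
    Summable (fun L : ℕ => Real.exp (-(η * r * A a L K))) →
    Summable (fun L : ℕ => Real.exp (-(η * A a L (r * K))))

/-- The random set. -/
structure Rnd {Ω : Type} [MeasurableSpace Ω] (μ : Measure Ω) (p : ℕ → ℝ) (B : Ω → Set ℕ) :
    Prop where
  prob : IsProbabilityMeasure μ
  nonneg : ∀ n, 0 ≤ p n
  anti : ∀ m n, 1 ≤ m → m ≤ n → p n ≤ p m
  zero : ∀ ω, 0 ∈ B ω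
  meas : ∀ n, MeasurableSet {ω | n ∈ B ω}
  mass : ∀ n, 1 ≤ n → μ {ω | n ∈ B ω} = ENNReal.ofReal (p n)
  indep : iIndepSet (fun n : ℕ => {ω | n ∈ B ω}) μ

/-- The window of length `t` below `L`. -/
def W (L t : ℕ) : Finset ℕ := Finset.Ioc (2 ^ (L - t)) (2 ^ L)

/-- The lowered probability: `p` at the end of the dyadic block of `n`. -/
noncomputable def q (p : ℕ → ℝ) (n : ℕ) : ℝ := p (2 ^ Nat.clog 2 n)

/-- The weight of `n`. -/
noncomputable def wt (p : ℕ → ℝ) (n : ℕ) : ℝ := q p n / p n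

/-- The additive character. -/
noncomputable def e (x : ℝ) : ℂ := Complex.exp (2 * Real.pi * Complex.I * x)

/-- Weighted exponential sum over the elements of `B` in the window. -/
noncomputable def S (p : ℕ → ℝ) (B : Set ℕ) (L t : ℕ) (θ : ℝ) : ℂ :=
  ∑ n ∈ (W L t).filter (fun n => n ∈ B), (wt p n : ℂ) * e (n * θ)

/-- Weighted number of elements of `B` in the window. -/
noncomputable def Sm (p : ℕ → ℝ) (B : Set ℕ) (L t : ℕ) : ℝ :=
  ∑ n ∈ (W L t).filter (fun n => n ∈ B), wt p n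

/-- The window of length `t` controls all frequencies up to the level `t'`. -/
def GoodW (p : ℕ → ℝ) (B : Set ℕ) (L t t' : ℕ) (ε : ℝ) (C : ℕ) : Prop :=
  A (blk p) L t ≤ 2 * Sm p B L t ∧
    ∀ θ : ℝ, (∀ j : ℤ, 2 ^ (t + C) / 2 ^ L ≤ |θ - j|) →
      (∃ j : ℤ, |θ - j| ≤ 2 ^ (t' + C) / 2 ^ L) → ‖S p B L t θ‖ ≤ ε * Sm p B L t

/-- (P1) Sums of the lowered probabilities. Proof: the block `(2 ^ k, 2 ^ (k + 1)]` has `2 ^ k`
elements with `q p n = p (2 ^ (k + 1))`; geometric sum `≤ 1 / |sin (π θ)| ≤ 1 / (2 * ‖θ‖)`. -/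
def SpecExp : Prop :=
  ∀ p : ℕ → ℝ, (∀ n, 0 ≤ p n) → ∀ L t : ℕ, t ≤ L →
    (∑ n ∈ W L t, q p n = A (blk p) L t) ∧
    ∀ (C : ℕ) (θ : ℝ), (∀ j : ℤ, 2 ^ (t + C) / 2 ^ L ≤ |θ - j|) →
      ‖∑ n ∈ W L t, (q p n : ℂ) * e (n * θ)‖ * 2 ^ C ≤ A (blk p) L t

/-- (P2) Large deviations at one frequency. Proof: `E exp (λ c (1_B(n) - p n)) ≤ exp (λ² c² p n)`
for `|λ c| ≤ 1`, `∑ (wt p n)² p n ≤ ∑ q p n = A`; apply it to the real and the imaginary part with
`λ = ± ε / 4`. -/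
def SpecDev : Prop :=
  (∀ p : ℕ → ℝ, (∀ n, 0 ≤ p n) → ∀ L t : ℕ, t ≤ L → ∑ n ∈ W L t, q p n = A (blk p) L t) →
  ∀ (Ω : Type) [MeasurableSpace Ω] (μ : Measure Ω) (p : ℕ → ℝ) (B : Ω → Set ℕ), Rnd μ p B →
    ∀ (L t : ℕ) (θ ε : ℝ), t ≤ L → 0 < ε → ε ≤ 1 →
      μ {ω | ε * A (blk p) L t < ‖S p (B ω) L t θ - ∑ n ∈ W L t, (q p n : ℂ) * e (n * θ)‖} ≤
        ENNReal.ofReal (4 * Real.exp (-(ε ^ 2 * A (blk p) L t / 16)))

/-- (P3) All frequencies. Proof: (P1), (P2) (also at `θ = 0`) and a grid of frequencies of mesh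
`ε / (100 * 2 ^ L)`; between the grid points `|S θ - S θ'| ≤ 2 π |θ - θ'| 2 ^ L Sm`. -/
def SpecGrid : Prop :=
  ∀ ε : ℝ, 0 < ε → ε ≤ 1 → ∃ (C : ℕ) (c H : ℝ), 0 < c ∧ 0 < H ∧
    ∀ (Ω : Type) [MeasurableSpace Ω] (μ : Measure Ω) (p : ℕ → ℝ) (B : Ω → Set ℕ), Rnd μ p B →
      ∀ L t t' : ℕ, t ≤ L →
        μ {ω | ¬ GoodW p (B ω) L t t' ε C} ≤
          ENNReal.ofReal (H * 2 ^ t' * Real.exp (-(c * A (blk p) L t)))

/-- (P4) From good windows to a measure (deterministic). Proof: `ν` is the convolution of the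
normalised weights of the windows `t i`, `i < n`. -/
def SpecMeas : Prop :=
  ∀ (p : ℕ → ℝ) (B : Set ℕ) (L n N : ℕ) (t : ℕ → ℕ) (ε : ℝ) (C : ℕ), (∀ n, 0 ≤ p n) → 0 ∈ B →
    0 < ε → ε ≤ 1 → n ≤ N → t n = L → (∀ i < n, t i < t (i + 1)) →
    (∀ i < n, 0 < A (blk p) L (t i)) → (∀ i < n, GoodW p B L (t i) (t (i + 1)) ε C) →
    ∀ x : ℕ, N * 2 ^ L ≤ x → ∃ ν : ℕ → ℝ, (∀ b, 0 ≤ ν b) ∧
      (∀ b, ν b ≠ 0 → b ∈ sums B (fun _ => N) ∧ b ≤ x) ∧
      ∑ b ∈ Finset.range (x + 1), ν b = 1 ∧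
      ∀ θ : ℝ, (∀ j : ℤ, 2 ^ (t 0 + C) / 2 ^ L ≤ |θ - j|) → ‖ft ν x θ‖ ≤ ε

/-- (P5) The main case. Proof: for `ε` take `C, c, H` from (P3), `M` with `c * M ≥ 4`, `T` from
(D2), `r` with `c * r ≥ 2`, and by (D3) a length `K` with `exp (- c / 2 * A a L K)` summable; so
`A a L K → ∞`. For large `L` the windows `K, t 0 = max T (K + 1), t 1, ..., t n = L` (at most
`N + 1` of them) are all good outside an event of probability `O (exp (- c / 2 * A a L K))`. Borel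
and Cantelli. For the scale `x` take the largest `L` with `(N + 1) * 2 ^ L ≤ x`. -/
def SpecMain : Prop :=
  ∀ (Ω : Type) [MeasurableSpace Ω] (μ : Measure Ω) (p : ℕ → ℝ) (B : Ω → Set ℕ), Rnd μ p B →
    ¬ CaseOne (blk p) → Dense (blk p) →
    ∃ N : ℕ, ∀ᵐ ω ∂μ, Spectral (sums (B ω) fun _ => N)

/-- The hypothesis of `CAP.SpecPhase`. -/
def PhaseIn (B : Set ℕ) (s : ℕ) : Prop :=
  ∀ m q : ℕ, ∃ (N : ℕ) (θ : ℕ → ℝ), 0 < N ∧ (∀ k < m, 0 < θ k) ∧
    (∀ k, k + 1 < m → 2 ^ q * θ k ≤ θ (k + 1)) ∧ (∀ k < m, 2 ^ q ≤ θ k * N) ∧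
    (∀ k < m, 2 ^ q * θ k ≤ 1) ∧ 2 ^ q * (cnt B N + 1) ≤ N ∧
    ∀ b ∈ B, b ≤ N → ((Finset.range m).filter
      (fun k => 1 < 2 ^ q * |θ k * b - round (θ k * b)|)).card ≤ s

/-- (G1) Short lists (deterministic). Proof: Dirichlet: among the multiples `j θ₀`,
`0 ≤ j ≤ 2 ^ ((q + 2) * l)`, of `θ₀ = 2 ^ (t i + q) / 2 ^ L` two agree modulo one, up to
`2 ^ (-(q + 1))`, at all the `l` elements of `B` in the window `t i`; the difference is `θ i`. -/
def SpecLists : Prop :=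
  ∀ m q : ℕ, ∃ K C : ℕ, ∀ (B : Set ℕ) (L : ℕ) (t : ℕ → ℕ), K ≤ t 0 → t m ≤ L →
    (∀ i < m, C * (((W L (t i)).filter (fun n => n ∈ B)).card + t i + 1) ≤ t (i + 1)) →
    ∃ θ : ℕ → ℝ, (∀ k < m, 0 < θ k) ∧
      (∀ k, k + 1 < m → 2 ^ q * θ k ≤ θ (k + 1)) ∧ (∀ k < m, 2 ^ q ≤ θ k * 2 ^ L) ∧
      (∀ k < m, 2 ^ q * θ k ≤ 1) ∧ (0 < m → 2 ^ q * (cnt B (2 ^ L) + 1) ≤ 2 ^ L) ∧
      ∀ b ∈ B, b ≤ 2 ^ L → ((Finset.range m).filter
        (fun k => 1 < 2 ^ q * |θ k * b - round (θ k * b)|)).card ≤ 1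

/-- (G2) Number of elements in a window. Proof: the mean is at most `3 * A a L (t + 1)`, and
`E exp N ≤ exp (2 * mean)`. -/
def SpecNum : Prop :=
  ∀ (Ω : Type) [MeasurableSpace Ω] (μ : Measure Ω) (p : ℕ → ℝ) (B : Ω → Set ℕ), Rnd μ p B →
    ∀ L t : ℕ, t ≤ L →
      μ {ω | 6 * A (blk p) L (t + 1) + t < (((W L t).filter (fun n => n ∈ B ω)).card : ℝ)} ≤
        ENNReal.ofReal (Real.exp (-t))

/-- (G3) Case one. Proof: chains with `J = K = k`, `C = 6 * k`, (G2) for `i < k`, Borel and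
Cantelli (the failure probabilities are `O (exp (-k))`), (G1) for `m + 1` in place of `m` (so that
`m = 0` is included) and some large `k`. -/
def SpecCaseOne : Prop :=
  ∀ (Ω : Type) [MeasurableSpace Ω] (μ : Measure Ω) (p : ℕ → ℝ) (B : Ω → Set ℕ), Rnd μ p B →
    CaseOne (blk p) → ∀ᵐ ω ∂μ, PhaseIn (B ω) 1

/-- (G4) Case two. Proof: `p n < 1 / 2` for large `n` (otherwise `Dense`); the probability that
the window `(2 ^ (L - K), 2 ^ L]` is empty is at least `exp (- 8 * A a L (K + 1))`; these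
probabilities are not summable by (D3); so they are not summable over some residue class modulo
`K`, where the events are independent: second Borel-Cantelli lemma. -/
def SpecGaps : Prop :=
  ∀ (Ω : Type) [MeasurableSpace Ω] (μ : Measure Ω) (p : ℕ → ℝ) (B : Ω → Set ℕ), Rnd μ p B →
    ¬ Dense (blk p) → ∀ K : ℕ, ∀ᵐ ω ∂μ, ∀ L₀ : ℕ, ∃ L : ℕ, L₀ ≤ L ∧ K ≤ L ∧
      ∀ n ∈ B ω, ¬ (2 ^ (L - K) < n ∧ n ≤ 2 ^ L)

/-- (G5) Gaps give phases (deterministic): `θ k = 2 ^ (q * (k + 1)) / 2 ^ L`. -/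
def SpecGapPhase : Prop :=
  ∀ B : Set ℕ, (∀ K L₀ : ℕ, ∃ L : ℕ, L₀ ≤ L ∧ K ≤ L ∧ ∀ n ∈ B, ¬ (2 ^ (L - K) < n ∧ n ≤ 2 ^ L)) →
    PhaseIn B 0

/-- The theorem: almost surely not essential, or almost surely extraordinary. -/
def SpecFinal : Prop :=
  ∀ (Ω : Type) [MeasurableSpace Ω] (μ : Measure Ω) (p : ℕ → ℝ) (B : Ω → Set ℕ), Rnd μ p B →
    (∀ᵐ ω ∂μ, ¬ Essential (B ω)) ∨ (∀ᵐ ω ∂μ, Extraordinary (B ω))

/-- (I) The product measure. -/
def SpecInst : Prop :=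
  ∀ p : ℕ → unitInterval, (∀ m n, 1 ≤ m → m ≤ n → p n ≤ p m) →
    Rnd (Measure.infinitePi fun n => bernoulliMeasure true false (p n)) (fun n => (p n : ℝ))
      (fun ω : ℕ → Bool => {n | n = 0 ∨ ω n = true})

end Pool.Agent.Lib.MP_b75bf2_nt.RND
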